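import Pool.Agent.N210.FW.Sym

/-!
# Integral relations between the characters on a power-closed set of traces of roots of unity
-/

set_option autoImplicit false

namespace Pool.Agent.N845.SP

open Polynomial Pool.Agent.N210.FW

/-- the character of `Sym^k` as a polynomial in the trace -/
noncomputable def Xr (R : Type*) [CommRing R] : ℕ → R[X]
  | 0 => 1
  | 1 => X
  | k + 2 => X * Xr R (k + 1) - Xr R k

section

variable {R : Type*} [CommRing R] [Nontrivial R]

theorem Xr_monic : ∀ k : ℕ, (Xr R k).Monic ∧ (Xr R k).natDegree = k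
  | 0 => by simp [Xr]
  | 1 => by simp [Xr, monic_X]
  | k + 2 => by
    obtain ⟨h1, h2⟩ := Xr_monic (k + 1)
    obtain ⟨h3, h4⟩ := Xr_monic k
    have h5 : (X * Xr R (k + 1)).Monic := monic_X.mul h1
    have h6 : (X * Xr R (k + 1)).natDegree = k + 2 := by
      rw [monic_X.natDegree_mul h1, natDegree_X, h2]
      ring
    have h7 : (Xr R k).degree < (X * Xr R (k + 1)).degree := by
      rw [degree_eq_natDegree h3.ne_zero, degree_eq_natDegree h5.ne_zero, h6, h4]
      exact_mod_cast (by omega : k < k + 2)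
    unfold Xr
    refine ⟨h5.sub_of_left h7, ?_⟩
    rw [natDegree_sub_eq_left_of_natDegree_lt (by rw [h6, h4]; omega), h6]

omit [Nontrivial R] in
theorem aeval_Xr [Algebra R ℝ] (x : ℝ) : ∀ k : ℕ, aeval x (Xr R k) = xr k x
  | 0 => by simp [Xr, xr]
  | 1 => by simp [Xr, xr]
  | k + 2 => by
    unfold Xr
    rw [map_sub, map_mul, aeval_X, aeval_Xr x (k + 1), aeval_Xr x k, xr]

/-- polynomials of degree `< n` are combinations of the first `n` characters -/
theorem exists_coef [Algebra R ℝ] : ∀ (n : ℕ) (P : R[X]), (∀ m, n ≤ m → P.coeff m = 0) →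
    ∃ c : ℕ → R, ∀ x : ℝ, aeval x P = ∑ j ∈ Finset.range n, algebraMap R ℝ (c j) * xr j x
  | 0, P, h => by
    have : P = 0 := by
      ext m
      rw [h m (Nat.zero_le _), coeff_zero]
    exact ⟨fun _ => 0, fun x => by simp [this]⟩
  | n + 1, P, h => by
    obtain ⟨h1, h2⟩ := Xr_monic (R := R) n
    obtain ⟨c, hc⟩ := exists_coef n (P - C (P.coeff n) * Xr R n) (by
      intro m hm
      rw [coeff_sub, coeff_C_mul]
      rcases Nat.eq_or_lt_of_le hm with h3 | h3
      · subst h3
        have h4 : (Xr R n).coeff n = 1 := by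
          have := h1.coeff_natDegree
          rwa [h2] at this
        rw [h4]
        ring
      · have h4 : (Xr R n).coeff m = 0 := coeff_eq_zero_of_natDegree_lt (by rw [h2]; exact h3)
        rw [h m h3, h4]
        ring)
    refine ⟨fun j => if j = n then P.coeff n else c j, fun x => ?_⟩
    have h3 := hc x
    rw [map_sub, map_mul, aeval_C, aeval_Xr] at h3
    rw [Finset.sum_range_succ]
    have h4 : ∑ j ∈ Finset.range n, algebraMap R ℝ (if j = n then P.coeff n else c j) * xr j x =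
        ∑ j ∈ Finset.range n, algebraMap R ℝ (c j) * xr j x := by
      refine Finset.sum_congr rfl fun j hj => ?_
      rw [if_neg (by rw [Finset.mem_range] at hj; omega)]
    simp only [h4, if_true]
    rw [← h3]
    ring

end

/-- a finite set of algebraic integers which is stable under conjugation is the set of roots of an
integral polynomial -/
theorem int_poly : ∀ (n : ℕ) (W : Finset ℂ), W.card = n → (∀ w ∈ W, IsIntegral ℤ w) →
    (∀ w ∈ W, ∀ z : ℂ, aeval z (minpoly ℚ w) = 0 → z ∈ W) →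
    ∃ P : ℤ[X], P.Monic ∧ P.map (Int.castRingHom ℂ) = ∏ w ∈ W, (X - C w) := by
  classical
  intro n
  induction n using Nat.strong_induction_on with
  | _ n ih =>
    intro W hW hint hst
    rcases W.eq_empty_or_nonempty with h0 | ⟨w, hw⟩
    · subst h0
      exact ⟨1, monic_one, by simp⟩
    · have hwi := hint w hw
      have hwq : IsIntegral ℚ w := hwi.tower_top
      set m := minpoly ℚ w with hm
      set Rt : Finset ℂ := (m.aroots ℂ).toFinset with hRt
      have hmem : ∀ z, z ∈ Rt ↔ aeval z m = 0 := by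
        intro z
        rw [hRt, Multiset.mem_toFinset, mem_aroots]
        exact ⟨fun h => h.2, fun h => ⟨minpoly.ne_zero hwq, h⟩⟩
      have hRW : Rt ⊆ W := fun z hz => hst w hw z ((hmem z).1 hz)
      have hwR : w ∈ Rt := (hmem w).2 (minpoly.aeval ℚ w)
      obtain ⟨P, hP, hPm⟩ := ih (W \ Rt).card (by
          rw [← hW]
          apply Finset.card_lt_card
          rw [Finset.ssubset_iff_of_subset Finset.sdiff_subset]
          exact ⟨w, hw, fun h => (Finset.mem_sdiff.1 h).2 hwR⟩) (W \ Rt) rfl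
        (fun z hz => hint z (Finset.mem_sdiff.1 hz).1) (by
          intro z hz u hu
          rw [Finset.mem_sdiff] at hz ⊢
          refine ⟨hst z hz.1 u hu, fun hu2 => hz.2 ?_⟩
          have h1 : aeval u m = 0 := (hmem u).1 hu2
          have hzq : IsIntegral ℚ z := (hint z hz.1).tower_top
          have h2 : minpoly ℚ u = m :=
            (minpoly.eq_of_irreducible_of_monic (minpoly.irreducible hwq) h1
              (minpoly.monic hwq)).symm
          have h3 : minpoly ℚ u = minpoly ℚ z :=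
            (minpoly.eq_of_irreducible_of_monic (minpoly.irreducible hzq) hu
              (minpoly.monic hzq)).symm
          rw [hmem, ← h2, h3]
          exact minpoly.aeval ℚ z)
      refine ⟨minpoly ℤ w * P, (minpoly.monic hwi).mul hP, ?_⟩
      rw [Polynomial.map_mul, hPm]
      have h1 : (minpoly ℤ w).map (Int.castRingHom ℂ) = ∏ z ∈ Rt, (X - C z) := by
        have h2 : minpoly ℚ w = (minpoly ℤ w).map (algebraMap ℤ ℚ) :=
          minpoly.isIntegrallyClosed_eq_field_fractions' ℚ hwi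
        have h3 : (minpoly ℤ w).map (Int.castRingHom ℂ) = m.map (algebraMap ℚ ℂ) := by
          rw [hm, h2, Polynomial.map_map]
          congr 1
        have h4 : (m.map (algebraMap ℚ ℂ)).Splits := IsAlgClosed.splits _
        have h5 : (m.map (algebraMap ℚ ℂ)).Separable := (minpoly.irreducible hwq).separable.map
        have h6 : (m.map (algebraMap ℚ ℂ)).roots.Nodup := nodup_roots h5
        rw [h3, h4.eq_prod_roots]
        have h7 : (m.map (algebraMap ℚ ℂ)).leadingCoeff = 1 := (minpoly.monic hwq).map _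
        rw [h7, C_1, one_mul, Finset.prod_eq_multiset_prod]
        congr 2
        rw [hRt, Multiset.toFinset_val, aroots_def, Multiset.dedup_eq_self.2 h6]
      rw [h1, ← Finset.prod_union Finset.disjoint_sdiff, Finset.union_sdiff_of_subset hRW]

/-- the conjugates of `u + u⁻¹` -/
theorem conj_trace {u : ℂ} {d : ℕ} (hd : 0 < d) (hu : u ^ d = 1) {z : ℂ}
    (hz : aeval z (minpoly ℚ (u + u⁻¹)) = 0) : ∃ n : ℕ, 1 ≤ n ∧ z = u ^ n + (u ^ n)⁻¹ := by
  have hu0 : u ≠ 0 := by
    rintro rfl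
    rw [zero_pow hd.ne'] at hu
    exact zero_ne_one hu
  set e := orderOf u with he
  have he0 : 0 < e := orderOf_pos_iff.2 (isOfFinOrder_iff_pow_eq_one.2 ⟨d, hd, hu⟩)
  have hprim : IsPrimitiveRoot u e := IsPrimitiveRoot.orderOf u
  have : NeZero e := ⟨he0.ne'⟩
  set Q : ℚ[X] := dickson 1 (1 : ℚ) e - 2 with hQ
  have hev : ∀ x : ℂ, x ≠ 0 → aeval (x + x⁻¹) Q = x ^ e + (x⁻¹) ^ e - 2 := by
    intro x hx
    rw [hQ, map_sub]
    have h1 : aeval (x + x⁻¹) (dickson 1 (1 : ℚ) e) = x ^ e + (x⁻¹) ^ e := by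
      rw [aeval_def, eval₂_eq_eval_map, map_dickson, map_one]
      exact dickson_one_one_eval_add_inv x x⁻¹ (mul_inv_cancel₀ hx) e
    rw [h1, map_ofNat]
  have h1 : aeval (u + u⁻¹) Q = 0 := by
    rw [hev u hu0, inv_pow, hprim.pow_eq_one]
    norm_num
  have h2 : minpoly ℚ (u + u⁻¹) ∣ Q := minpoly.dvd ℚ _ h1
  have h3 : aeval z Q = 0 := by
    obtain ⟨q, hq⟩ := h2
    rw [hq, map_mul, hz, zero_mul]
  -- write `z = x + x⁻¹`
  obtain ⟨x, hx⟩ : ∃ x : ℂ, x ^ 2 - z * x + 1 = 0 := by
    obtain ⟨t, ht⟩ := IsAlgClosed.exists_pow_nat_eq (z ^ 2 - 4) (n := 2) (by norm_num)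
    refine ⟨(z + t) / 2, ?_⟩
    have : ((z + t) / 2) ^ 2 - z * ((z + t) / 2) + 1 = (t ^ 2 - (z ^ 2 - 4)) / 4 := by ring
    rw [this, ht]
    ring
  have hx0 : x ≠ 0 := by
    rintro rfl
    norm_num at hx
  have hzx : z = x + x⁻¹ := by
    field_simp
    linear_combination -hx
  rw [hzx, hev x hx0] at h3
  have h4 : x ^ e = 1 := by
    have h5 : x ^ e ≠ 0 := pow_ne_zero _ hx0
    rw [inv_pow] at h3
    have h6 : (x ^ e - 1) ^ 2 = 0 := by
      have h7 : x ^ e * (x ^ e + (x ^ e)⁻¹ - 2) = 0 := by rw [h3, mul_zero]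
      have h8 : x ^ e * (x ^ e)⁻¹ = 1 := mul_inv_cancel₀ h5
      linear_combination h7 - h8
    exact sub_eq_zero.1 (pow_eq_zero_iff (by norm_num) |>.1 h6)
  obtain ⟨i, -, hi⟩ := hprim.eq_pow_of_pow_eq_one h4
  refine ⟨i + e, by omega, ?_⟩
  rw [pow_add, hprim.pow_eq_one, mul_one, hi, hzx]

theorem integral_trace {u : ℂ} {d : ℕ} (hd : 0 < d) (hu : u ^ d = 1) : IsIntegral ℤ (u + u⁻¹) := by
  have h1 : IsIntegral ℤ u := IsIntegral.of_pow hd (by rw [hu]; exact isIntegral_one)
  have h2 : IsIntegral ℤ u⁻¹ := IsIntegral.of_pow hd (by rw [inv_pow, hu, inv_one]; exact isIntegral_one)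
  exact h1.add h2

/-- **integral relations** -/
theorem int_rel {V : Finset ℝ}
    (hV : ∀ v ∈ V, ∃ (u : ℂ) (d : ℕ), 0 < d ∧ u ^ d = 1 ∧ u + u⁻¹ = (v : ℂ) ∧
      ∀ n : ℕ, 1 ≤ n → ∃ w ∈ V, u ^ n + (u ^ n)⁻¹ = (w : ℂ)) :
    ∃ P : ℤ[X], P.Monic ∧ P.natDegree = V.card ∧ (∀ x : ℝ, aeval x P = ∏ v ∈ V, (x - v)) := by
  classical
  set W : Finset ℂ := V.image fun v : ℝ => (v : ℂ) with hW
  have hcard : W.card = V.card := Finset.card_image_of_injective _ Complex.ofReal_injective
  obtain ⟨P, hP, hPm⟩ := int_poly _ W rfl (by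
      intro w hw
      rw [hW, Finset.mem_image] at hw
      obtain ⟨v, hv, rfl⟩ := hw
      obtain ⟨u, d, hd, hu, huv, -⟩ := hV v hv
      rw [← huv]
      exact integral_trace hd hu) (by
      intro w hw z hz
      rw [hW, Finset.mem_image] at hw ⊢
      obtain ⟨v, hv, rfl⟩ := hw
      obtain ⟨u, d, hd, hu, huv, hn⟩ := hV v hv
      rw [← huv] at hz
      obtain ⟨n, hn1, rfl⟩ := conj_trace hd hu hz
      obtain ⟨w, hw, hw2⟩ := hn n hn1
      exact ⟨w, hw, hw2.symm⟩)
  refine ⟨P, hP, ?_, fun x => ?_⟩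
  · have h1 : (P.map (Int.castRingHom ℂ)).natDegree = P.natDegree := hP.natDegree_map _
    rw [← h1, hPm, natDegree_prod_of_monic _ _ fun w _ => monic_X_sub_C w]
    simp [hcard]
  · have h1 : aeval (x : ℂ) P = ∏ w ∈ W, ((x : ℂ) - w) := by
      rw [aeval_def, eval₂_eq_eval_map]
      have : (algebraMap ℤ ℂ) = Int.castRingHom ℂ := rfl
      rw [this, hPm, eval_prod]
      simp
    rw [hW, Finset.prod_image fun a _ b _ h => Complex.ofReal_injective h] at h1
    have h2 : aeval (x : ℂ) P = ((aeval x P : ℝ) : ℂ) := by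
      have := aeval_algebraMap_apply (A := ℝ) (B := ℂ) x P
      simpa using this
    rw [h2] at h1
    exact_mod_cast h1

/-- reduction of all characters -/
theorem char_rel {P : ℤ[X]} (hP : P.Monic) (k : ℕ) : ∃ c : ℕ → ℤ, ∀ x : ℝ, aeval x P = 0 →
    xr k x = ∑ j ∈ Finset.range P.natDegree, (c j : ℝ) * xr j x := by
  by_cases h0 : P = 1
  · exact ⟨fun _ => 0, fun x hx => by
      rw [h0, map_one] at hx
      exact absurd hx one_ne_zero⟩
  obtain ⟨c, hc⟩ := exists_coef (R := ℤ) P.natDegree (Xr ℤ k %ₘ P) (by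
    intro m hm
    apply coeff_eq_zero_of_natDegree_lt
    exact lt_of_lt_of_le (natDegree_modByMonic_lt _ hP h0) hm)
  refine ⟨c, fun x hx => ?_⟩
  have h1 := modByMonic_add_div (Xr ℤ k) P
  have h2 : aeval x (Xr ℤ k) = aeval x (Xr ℤ k %ₘ P) := by
    conv_lhs => rw [← h1]
    rw [map_add, map_mul, hx, zero_mul, add_zero]
  rw [aeval_Xr] at h2
  rw [h2, hc x]
  simp

end Pool.Agent.N845.SP
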