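import Pool.Agent.N845.SP.Rel

/-!
# Products and quotients of L-functions
-/

set_option autoImplicit false

namespace Pool.Agent.N845.SP

open Filter Topology Complex Set Pool.Agent.N210.FV Pool.Agent.N210.FW

/-- inverse gamma factors, even and odd -/
noncomputable def Gm (i : ℕ) (s : ℂ) : ℂ := (Gammaℝ (s + i))⁻¹

theorem Gm_diff (i : ℕ) : Differentiable ℂ (Gm i) := gi_one_diff (i : ℂ)

theorem Gm_ne (i : ℕ) : ∃ s, Gm i s ≠ 0 := by
  obtain ⟨s, hs⟩ := Gr_ne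
  exact ⟨s - i, by unfold Gm; simpa using hs⟩

/-- a quotient `N/D` with Euler product `∏ exp (-E p s)`, and the gamma factor
`Γ_ℝ(s)^(g.1) Γ_ℝ(s+1)^(g.2)` if `P` holds -/
structure Nice (P : Prop) (S : Finset ℕ) (E : ℕ → ℂ → ℂ) (g : ℤ × ℤ) (N D : ℂ → ℂ) : Prop where
  diffN : Differentiable ℂ N
  diffD : Differentiable ℂ D
  order : ∃ C : ℝ, 0 ≤ C ∧ ∀ s, ‖N s‖ ≤ Real.exp (C * (1 + ‖s‖) ^ (3 / 2 : ℝ)) ∧
    ‖D s‖ ≤ Real.exp (C * (1 + ‖s‖) ^ (3 / 2 : ℝ))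
  neN : ∀ s : ℂ, 1 < s.re → N s ≠ 0
  neD : ∀ s : ℂ, 1 < s.re → D s ≠ 0
  euler : ∀ s : ℂ, 1 < s.re → Tendsto (fun X : ℕ =>
    ∏ p ∈ (Finset.range X).filter (fun p => p.Prime ∧ p ∉ S), exp (-(E p s))) atTop
      (𝓝 (N s / D s))
  fe : P → ∃ (a0 b0 a1 b1 : ℕ) (l l' : List (ℕ × ℂ)) (q : ℝ) (ε : ℂ),
    (a0 : ℤ) - b0 = g.1 ∧ (a1 : ℤ) - b1 = g.2 ∧ 0 < q ∧ ε ≠ 0 ∧
    (∀ x ∈ l, x.1.Prime ∧ x.1 ∈ S) ∧ (∀ x ∈ l', x.1.Prime ∧ x.1 ∈ S) ∧
    ∀ s, (q : ℂ) ^ s * (Gm 0 (1 - s) ^ a0 * Gm 0 s ^ b0 * Gm 1 (1 - s) ^ a1 * Gm 1 s ^ b1) *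
        ef l (1 - s) * ef l' s * (N s * D (1 - s)) =
      ε * (q : ℂ) ^ (1 - s) * (Gm 0 s ^ a0 * Gm 0 (1 - s) ^ b0 * Gm 1 s ^ a1 * Gm 1 (1 - s) ^ b1) *
        ef l s * ef l' (1 - s) * (N (1 - s) * D s)

variable {P : Prop} {S : Finset ℕ} {E E' : ℕ → ℂ → ℂ} {g g' : ℤ × ℤ} {N D N' D' : ℂ → ℂ}

theorem Nice.one : Nice P S (fun _ _ => 0) 0 (fun _ => 1) (fun _ => 1) := by
  refine ⟨differentiable_const _, differentiable_const _, ⟨0, le_rfl, fun s => ?_⟩,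
    fun _ _ => one_ne_zero, fun _ _ => one_ne_zero, fun s _ => ?_,
    fun _ => ⟨0, 0, 0, 0, [], [], 1, 1, by simp, by simp, by norm_num, one_ne_zero, by simp, by simp,
      fun s => ?_⟩⟩
  · simp
  · simp
  · simp [ef]

theorem cpow_mul_pos {q q' : ℝ} (hq : 0 < q) (hq' : 0 < q') (s : ℂ) :
    ((q * q' : ℝ) : ℂ) ^ s = (q : ℂ) ^ s * (q' : ℂ) ^ s := by
  rw [ofReal_mul, mul_cpow_ofReal_nonneg hq.le hq'.le]

theorem Nice.mul (h : Nice P S E g N D) (h' : Nice P S E' g' N' D') :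
    Nice P S (fun p s => E p s + E' p s) (g + g') (fun s => N s * N' s) (fun s => D s * D' s) := by
  obtain ⟨C, hC0, hC⟩ := h.order
  obtain ⟨C', hC0', hC'⟩ := h'.order
  refine ⟨h.diffN.mul h'.diffN, h.diffD.mul h'.diffD, ⟨C + C', by positivity, fun s => ?_⟩,
    fun s hs => mul_ne_zero (h.neN s hs) (h'.neN s hs),
    fun s hs => mul_ne_zero (h.neD s hs) (h'.neD s hs), fun s hs => ?_, fun hP => ?_⟩
  · rw [add_mul, Real.exp_add, norm_mul, norm_mul]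
    exact ⟨mul_le_mul (hC s).1 (hC' s).1 (norm_nonneg _) (Real.exp_pos _).le,
      mul_le_mul (hC s).2 (hC' s).2 (norm_nonneg _) (Real.exp_pos _).le⟩
  · have h1 := (h.euler s hs).mul (h'.euler s hs)
    rw [div_mul_div_comm] at h1
    refine h1.congr fun X => ?_
    rw [← Finset.prod_mul_distrib]
    refine Finset.prod_congr rfl fun p _ => ?_
    rw [← exp_add]
    congr 1
    ring
  · obtain ⟨a0, b0, a1, b1, l, l', q, ε, h0, h1, hq, hε, hl, hl', hf⟩ := h.fe hP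
    obtain ⟨a0', b0', a1', b1', m, m', q', ε', h0', h1', hq', hε', hm, hm', hf'⟩ := h'.fe hP
    refine ⟨a0 + a0', b0 + b0', a1 + a1', b1 + b1', l ++ m, l' ++ m', q * q', ε * ε', ?_, ?_,
      mul_pos hq hq', mul_ne_zero hε hε', ?_, ?_, fun s => ?_⟩
    · push_cast
      simp only [Prod.fst_add]
      omega
    · push_cast
      simp only [Prod.snd_add]
      omega
    · intro x hx
      rcases List.mem_append.1 hx with hx | hx
      · exact hl x hx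
      · exact hm x hx
    · intro x hx
      rcases List.mem_append.1 hx with hx | hx
      · exact hl' x hx
      · exact hm' x hx
    · have e1 := hf s
      have e2 := hf' s
      rw [cpow_mul_pos hq hq', cpow_mul_pos hq hq']
      simp only [ef_append, pow_add]
      calc _ = ((q : ℂ) ^ s * (Gm 0 (1 - s) ^ a0 * Gm 0 s ^ b0 * Gm 1 (1 - s) ^ a1 * Gm 1 s ^ b1) *
          ef l (1 - s) * ef l' s * (N s * D (1 - s))) * ((q' : ℂ) ^ s *
          (Gm 0 (1 - s) ^ a0' * Gm 0 s ^ b0' * Gm 1 (1 - s) ^ a1' * Gm 1 s ^ b1') *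
          ef m (1 - s) * ef m' s * (N' s * D' (1 - s))) := by ring
        _ = _ := by
          rw [e1, e2]
          ring

theorem Nice.inv (h : Nice P S E g N D) : Nice P S (fun p s => -E p s) (-g) D N := by
  obtain ⟨C, hC0, hC⟩ := h.order
  refine ⟨h.diffD, h.diffN, ⟨C, hC0, fun s => ⟨(hC s).2, (hC s).1⟩⟩, h.neD, h.neN,
    fun s hs => ?_, fun hP => ?_⟩
  · have h1 := (h.euler s hs).inv₀ (div_ne_zero (h.neN s hs) (h.neD s hs))
    rw [inv_div] at h1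
    refine h1.congr fun X => ?_
    rw [← Finset.prod_inv_distrib]
    refine Finset.prod_congr rfl fun p _ => ?_
    rw [← exp_neg]
  · obtain ⟨a0, b0, a1, b1, l, l', q, ε, h0, h1, hq, hε, hl, hl', hf⟩ := h.fe hP
    have hq0 : (q : ℂ) ≠ 0 := by exact_mod_cast hq.ne'
    refine ⟨b0, a0, b1, a1, l', l, q⁻¹, ε⁻¹, ?_, ?_, inv_pos.2 hq, inv_ne_zero hε, hl', hl,
      fun s => ?_⟩
    · simp only [Prod.fst_neg]
      omega
    · simp only [Prod.snd_neg]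
      omega
    · have e1 := hf s
      have e2 : ((q⁻¹ : ℝ) : ℂ) ^ s = ((q : ℂ) ^ s)⁻¹ := by
        rw [ofReal_inv, ← ofReal_inv]
        have := cpow_mul_pos hq (inv_pos.2 hq) s
        rw [mul_inv_cancel₀ hq.ne', ofReal_one, one_cpow] at this
        exact (eq_inv_of_mul_eq_one_right this.symm)
      have e3 : ((q⁻¹ : ℝ) : ℂ) ^ (1 - s) = (q : ℂ) ^ s * (q : ℂ)⁻¹ := by
        have h2 := cpow_mul_pos hq (inv_pos.2 hq) (1 - s)
        rw [mul_inv_cancel₀ hq.ne', ofReal_one, one_cpow] at h2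
        rw [eq_inv_of_mul_eq_one_right h2.symm, cpow_sub _ _ hq0, cpow_one, inv_div]
        ring
      have e4 : (q : ℂ) ^ (1 - s) = (q : ℂ) * ((q : ℂ) ^ s)⁻¹ := by
        rw [cpow_sub _ _ hq0, cpow_one]
        ring
      rw [e2, e3]
      rw [e4] at e1
      have h2 : (q : ℂ) ^ s ≠ 0 := by
        rw [cpow_def_of_ne_zero hq0]
        exact exp_ne_zero _
      set Q : ℂ := (q : ℂ) ^ s with hQ
      clear_value Q
      set G1 := Gm 0 (1 - s) ^ a0 * Gm 0 s ^ b0 * Gm 1 (1 - s) ^ a1 * Gm 1 s ^ b1 with hG1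
      set G2 := Gm 0 s ^ a0 * Gm 0 (1 - s) ^ b0 * Gm 1 s ^ a1 * Gm 1 (1 - s) ^ b1 with hG2
      have e5 : Gm 0 (1 - s) ^ b0 * Gm 0 s ^ a0 * Gm 1 (1 - s) ^ b1 * Gm 1 s ^ a1 = G2 := by
        rw [hG2]
        ring
      have e6 : Gm 0 s ^ b0 * Gm 0 (1 - s) ^ a0 * Gm 1 s ^ b1 * Gm 1 (1 - s) ^ a1 = G1 := by
        rw [hG1]
        ring
      rw [e5, e6]
      clear_value G1 G2
      field_simp
      field_simp at e1
      linear_combination -e1

theorem Nice.nat (h : Nice P S E g N D) (n : ℕ) :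
    ∃ N' D', Nice P S (fun p s => (n : ℂ) * E p s) (n • g) N' D' := by
  induction n with
  | zero =>
    refine ⟨fun _ => 1, fun _ => 1, ?_⟩
    have := Nice.one (P := P) (S := S)
    simpa using this
  | succ n ih =>
    obtain ⟨N', D', h'⟩ := ih
    refine ⟨fun s => N' s * N s, fun s => D' s * D s, ?_⟩
    have h2 := h'.mul h
    have e1 : (fun p s => (n : ℂ) * E p s + E p s) = fun p s => ((n + 1 : ℕ) : ℂ) * E p s := by
      funext p s
      push_cast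
      ring
    rw [e1, ← succ_nsmul] at h2
    exact h2

theorem Nice.int (h : Nice P S E g N D) (n : ℤ) :
    ∃ N' D', Nice P S (fun p s => (n : ℂ) * E p s) (n • g) N' D' := by
  obtain ⟨m, rfl | rfl⟩ := n.eq_nat_or_neg
  · obtain ⟨N', D', h'⟩ := h.nat m
    exact ⟨N', D', by simpa using h'⟩
  · obtain ⟨N', D', h'⟩ := h.nat m
    refine ⟨D', N', ?_⟩
    have h2 := h'.inv
    have e1 : (fun p s => -((m : ℂ) * E p s)) = fun p s => (((-(m : ℤ) : ℤ)) : ℂ) * E p s := by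
      funext p s
      push_cast
      ring
    have e2 : -(m • g) = (-(m : ℤ)) • g := by
      rw [neg_smul, natCast_zsmul]
    rw [e1, e2] at h2
    exact h2

theorem Nice.sum {n : ℕ} {E : ℕ → ℕ → ℂ → ℂ} {g : ℕ → ℤ × ℤ} {N D : ℕ → ℂ → ℂ}
    (h : ∀ j < n, Nice P S (E j) (g j) (N j) (D j)) (c : ℕ → ℤ) :
    ∃ N' D', Nice P S (fun p s => ∑ j ∈ Finset.range n, (c j : ℂ) * E j p s)
      (∑ j ∈ Finset.range n, c j • g j) N' D' := by
  induction n with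
  | zero =>
    refine ⟨fun _ => 1, fun _ => 1, ?_⟩
    have := Nice.one (P := P) (S := S)
    simpa using this
  | succ n ih =>
    obtain ⟨N1, D1, h1⟩ := ih fun j hj => h j (by omega)
    obtain ⟨N2, D2, h2⟩ := (h n (by omega)).int (c n)
    refine ⟨fun s => N1 s * N2 s, fun s => D1 s * D2 s, ?_⟩
    have h3 := h1.mul h2
    simp only [Finset.sum_range_succ]
    exact h3

theorem Nice.congr (h : Nice P S E g N D)
    (hE : ∀ p : ℕ, p.Prime → p ∉ S → ∀ s : ℂ, 1 < s.re → E p s = E' p s) : Nice P S E' g N D := by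
  refine ⟨h.diffN, h.diffD, h.order, h.neN, h.neD, fun s hs => ?_, h.fe⟩
  refine (h.euler s hs).congr fun X => ?_
  refine Finset.prod_congr rfl fun p hp => ?_
  rw [Finset.mem_filter] at hp
  rw [hE p hp.2.1 hp.2.2 s hs]

theorem Nice.congr_g (h : Nice P S E g N D) (hg : P → g = g') : Nice P S E g' N D :=
  ⟨h.diffN, h.diffD, h.order, h.neN, h.neD, h.euler, fun hP => (hg hP) ▸ h.fe hP⟩

/-! ### cancellation of the gamma factors -/

theorem cancel {f g h : ℂ → ℂ} (hf : Differentiable ℂ f) (hg : Differentiable ℂ g)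
    (hh : Differentiable ℂ h) (hn : ∃ s, h s ≠ 0) (he : ∀ s, h s * f s = h s * g s) (s : ℂ) :
    f s = g s := by
  have h1 : ∀ᶠ u in 𝓝[≠] s, f u = g u := by
    filter_upwards [ev_ne hh hn s] with u hu
    exact mul_left_cancel₀ hu (he u)
  have h2 : Tendsto f (𝓝[≠] s) (𝓝 (f s)) :=
    hf.continuous.continuousAt.tendsto.mono_left nhdsWithin_le_nhds
  have h3 : Tendsto g (𝓝[≠] s) (𝓝 (g s)) :=
    hg.continuous.continuousAt.tendsto.mono_left nhdsWithin_le_nhds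
  exact tendsto_nhds_unique (h2.congr' h1) h3

theorem pow_ne {f : ℂ → ℂ} (hn : ∃ s, f s ≠ 0) (n : ℕ) :
    ∃ s, f s ^ n ≠ 0 := by
  obtain ⟨s, hs⟩ := hn
  exact ⟨s, pow_ne_zero n hs⟩

/-- the functional equation with the exact gamma factor -/
theorem Nice.fe' (h : Nice P S E g N D) (hP : P) {x y : ℕ} (hx : g.1 = x) (hy : g.2 = y) :
    ∃ (l l' : List (ℕ × ℂ)) (q : ℝ) (ε : ℂ), 0 < q ∧ ε ≠ 0 ∧
    (∀ x ∈ l, x.1.Prime ∧ x.1 ∈ S) ∧ (∀ x ∈ l', x.1.Prime ∧ x.1 ∈ S) ∧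
    ∀ s, (q : ℂ) ^ s * (Gm 0 (1 - s) ^ x * Gm 1 (1 - s) ^ y) *
        ef l (1 - s) * ef l' s * (N s * D (1 - s)) =
      ε * (q : ℂ) ^ (1 - s) * (Gm 0 s ^ x * Gm 1 s ^ y) *
        ef l s * ef l' (1 - s) * (N (1 - s) * D s) := by
  obtain ⟨a0, b0, a1, b1, l, l', q, ε, h0, h1, hq, hε, hl, hl', hf⟩ := h.fe hP
  refine ⟨l, l', q, ε, hq, hε, hl, hl', ?_⟩
  have ha0 : a0 = b0 + x := by omega
  have ha1 : a1 = b1 + y := by omega
  subst ha0 ha1
  have hq0 : (q : ℂ) ≠ 0 := by exact_mod_cast hq.ne'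
  have dq : Differentiable ℂ fun s : ℂ => (q : ℂ) ^ s := by
    have : (fun s : ℂ => (q : ℂ) ^ s) = fun s => exp (log (q : ℂ) * s) := by
      funext s
      rw [cpow_def_of_ne_zero hq0]
    rw [this]
    fun_prop
  have dl : Differentiable ℂ (ef l) := (ef_ent fun x hx => (hl x hx).1.one_lt).diff
  have dl' : Differentiable ℂ (ef l') := (ef_ent fun x hx => (hl' x hx).1.one_lt).diff
  have dG : ∀ i, Differentiable ℂ fun s => Gm i (1 - s) := fun i => refl_diff (Gm_diff i)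
  have dqr : Differentiable ℂ fun s : ℂ => (q : ℂ) ^ (1 - s) := refl_diff dq
  have dlr : Differentiable ℂ fun s => ef l (1 - s) := refl_diff dl
  have dlr' : Differentiable ℂ fun s => ef l' (1 - s) := refl_diff dl'
  have dNr : Differentiable ℂ fun s => N (1 - s) := refl_diff h.diffN
  have dDr : Differentiable ℂ fun s => D (1 - s) := refl_diff h.diffD
  intro s
  refine cancel (f := fun s => (q : ℂ) ^ s * (Gm 0 (1 - s) ^ x * Gm 1 (1 - s) ^ y) *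
        ef l (1 - s) * ef l' s * (N s * D (1 - s)))
    (g := fun s => ε * (q : ℂ) ^ (1 - s) * (Gm 0 s ^ x * Gm 1 s ^ y) *
        ef l s * ef l' (1 - s) * (N (1 - s) * D s))
    (h := fun s => (Gm 0 s ^ b0 * Gm 0 (1 - s) ^ b0) * (Gm 1 s ^ b1 * Gm 1 (1 - s) ^ b1))
    ?_ ?_ ?_ ?_ (fun s => ?_) s
  · exact ((((dq.mul (((dG 0).pow x).mul ((dG 1).pow y))).mul dlr).mul dl').mul (h.diffN.mul dDr))
  · exact (((((dqr.const_mul ε).mul (((Gm_diff 0).pow x).mul ((Gm_diff 1).pow y))).mul dl).mul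
      dlr').mul (dNr.mul h.diffD))
  · exact (((Gm_diff 0).pow b0).mul ((dG 0).pow b0)).mul (((Gm_diff 1).pow b1).mul ((dG 1).pow b1))
  · have n0 : ∀ i n, ∃ s, Gm i s ^ n ≠ 0 := fun i n => pow_ne (Gm_ne i) n
    have n1 : ∀ i n, ∃ s, Gm i (1 - s) ^ n ≠ 0 := fun i n => pow_ne (f := fun s => Gm i (1 - s)) (refl_ne (Gm_ne i)) n
    exact mul_nz (((Gm_diff 0).pow b0).mul ((dG 0).pow b0))
      (mul_nz ((Gm_diff 0).pow b0) (n0 0 b0) ((dG 0).pow b0) (n1 0 b0))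
      (((Gm_diff 1).pow b1).mul ((dG 1).pow b1))
      (mul_nz ((Gm_diff 1).pow b1) (n0 1 b1) ((dG 1).pow b1) (n1 1 b1))
  · have e1 := hf s
    simp only [pow_add] at e1
    linear_combination e1

end Pool.Agent.N845.SP
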