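import Pool.Agent.N845.SP.Alg
import Pool.Agent.N845.SP.Nice

/-!
# Power-closed sets of traces and all symmetric powers
-/

set_option autoImplicit false

namespace Pool.Agent.N845.SP

open Filter Topology Complex Set Pool.Agent.N210.FV Pool.Agent.N210.FW

/-! ### traces of powers -/

theorem tr_real {u : ℂ} (hu : u ≠ 0) {x : ℝ} (hx : u + u⁻¹ = x) :
    ∀ n : ℕ, ∃ y : ℝ, u ^ n + (u ^ n)⁻¹ = y
  | 0 => ⟨2, by norm_num⟩
  | 1 => ⟨x, by simpa using hx⟩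
  | n + 2 => by
    obtain ⟨y, hy⟩ := tr_real hu hx (n + 1)
    obtain ⟨w, hw⟩ := tr_real hu hx n
    refine ⟨x * y - w, ?_⟩
    push_cast
    rw [← hx, ← hy, ← hw]
    have h1 : u ^ n ≠ 0 := pow_ne_zero _ hu
    rw [pow_succ, pow_succ]
    field_simp
    ring

theorem tr_eq {u : ℂ} (hu : u ≠ 0) {m n : ℕ} (h : u ^ m + (u ^ m)⁻¹ = u ^ n + (u ^ n)⁻¹) :
    u ^ m = u ^ n ∨ u ^ (m + n) = 1 := by
  have hm : u ^ m ≠ 0 := pow_ne_zero _ hu
  have hn : u ^ n ≠ 0 := pow_ne_zero _ hu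
  have h1 : (u ^ m - u ^ n) * (u ^ (m + n) - 1) = 0 := by
    rw [pow_add]
    have h2 : u ^ m * u ^ n * (u ^ m + (u ^ m)⁻¹) = u ^ m * u ^ n * (u ^ n + (u ^ n)⁻¹) := by rw [h]
    have h3 : u ^ m * u ^ n * (u ^ m + (u ^ m)⁻¹) = (u ^ m) ^ 2 * u ^ n + u ^ n := by
      field_simp
    have h4 : u ^ m * u ^ n * (u ^ n + (u ^ n)⁻¹) = (u ^ n) ^ 2 * u ^ m + u ^ m := by
      field_simp
    rw [h3, h4] at h2
    linear_combination h2
  rcases mul_eq_zero.1 h1 with h2 | h2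
  · exact Or.inl (sub_eq_zero.1 h2)
  · exact Or.inr (sub_eq_zero.1 h2)

theorem root_unity {u : ℂ} (hu : u ≠ 0) {V : Finset ℝ}
    (h : ∀ n : ℕ, 1 ≤ n → ∃ v ∈ V, u ^ n + (u ^ n)⁻¹ = (v : ℂ)) :
    0 < orderOf u ∧ orderOf u / 2 + 1 ≤ V.card := by
  classical
  have h' : ∀ n : ℕ, ∃ v : V, u ^ (n + 1) + (u ^ (n + 1))⁻¹ = ((v : ℝ) : ℂ) := by
    intro n
    obtain ⟨v, hv, hv2⟩ := h (n + 1) (by omega)
    exact ⟨⟨v, hv⟩, hv2⟩
  choose f hf using h'
  have hfin : 0 < orderOf u := by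
    obtain ⟨m, n, hne, heq⟩ := Finite.exists_ne_map_eq_of_infinite f
    wlog hlt : m < n generalizing m n
    · exact this n m hne.symm heq.symm (lt_of_le_of_ne (not_lt.1 hlt) hne.symm)
    have h1 : u ^ (m + 1) + (u ^ (m + 1))⁻¹ = u ^ (n + 1) + (u ^ (n + 1))⁻¹ := by
      rw [hf m, hf n, heq]
    rw [orderOf_pos_iff, isOfFinOrder_iff_pow_eq_one]
    rcases tr_eq hu h1 with h2 | h2
    · refine ⟨n - m, by omega, ?_⟩
      have h3 : u ^ (n + 1) = u ^ (m + 1) * u ^ (n - m) := by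
        rw [← pow_add]
        congr 1
        omega
      rw [h3] at h2
      have h4 : u ^ (m + 1) ≠ 0 := pow_ne_zero _ hu
      exact mul_left_cancel₀ h4 (by rw [← h2, mul_one])
    · exact ⟨m + 1 + (n + 1), by omega, h2⟩
  refine ⟨hfin, ?_⟩
  set d := orderOf u with hd
  have hprim : IsPrimitiveRoot u d := IsPrimitiveRoot.orderOf u
  have hinj : Function.Injective fun n : Fin (d / 2 + 1) => f (n + d - 1) := by
    intro m n hmn
    simp only at hmn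
    have h1 : u ^ ((m : ℕ) + d) + (u ^ ((m : ℕ) + d))⁻¹ = u ^ ((n : ℕ) + d) + (u ^ ((n : ℕ) + d))⁻¹ := by
      have e1 : (m : ℕ) + d = (m + d - 1) + 1 := by omega
      have e2 : (n : ℕ) + d = (n + d - 1) + 1 := by omega
      rw [e1, e2, hf, hf, hmn]
    rw [pow_add, pow_add, hprim.pow_eq_one, mul_one, mul_one] at h1
    have hm := m.2
    have hn := n.2
    rcases tr_eq hu h1 with h2 | h2
    · exact Fin.ext (hprim.pow_inj (by omega) (by omega) h2)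
    · have h3 : d ∣ (m : ℕ) + n := orderOf_dvd_of_pow_eq_one h2
      apply Fin.ext
      rcases Nat.eq_zero_or_pos ((m : ℕ) + n) with h4 | h4
      · omega
      · have := Nat.le_of_dvd h4 h3
        omega
  have := Fintype.card_le_of_injective _ hinj
  simpa using this

/-! ### the Euler products -/

/-- the logarithm of the inverse Euler factor -/
noncomputable def El (α : ℕ → ℂ) (k p : ℕ) (s : ℂ) : ℂ :=
  ∑ i ∈ Finset.range (k + 1), log (1 - bs α k p i * (p : ℂ) ^ (-s))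

theorem bs_norm {α : ℕ → ℂ} {p : ℕ} (h : ‖α p‖ = 1) (k i : ℕ) : ‖bs α k p i‖ = 1 := by
  unfold bs
  rw [norm_zpow, h, one_zpow]

theorem pz_norm {p : ℕ} (hp : p.Prime) (s : ℂ) : ‖(p : ℂ) ^ (-s)‖ = (p : ℝ) ^ (-s.re) := by
  rw [norm_natCast_cpow_of_pos hp.pos, neg_re]

theorem bp_lt {α : ℕ → ℂ} {p : ℕ} (hp : p.Prime) (h : ‖α p‖ = 1) (k i : ℕ) {s : ℂ}
    (hs : 1 < s.re) : ‖bs α k p i * (p : ℂ) ^ (-s)‖ < 1 := by
  rw [norm_mul, bs_norm h, one_mul, pz_norm hp]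
  exact Real.rpow_lt_one_of_one_lt_of_neg (by exact_mod_cast hp.one_lt) (by linarith)

theorem fac_ne {z : ℂ} (h : ‖z‖ < 1) : 1 - z ≠ 0 := by
  intro h1
  have h2 : z = 1 := by linear_combination -h1
  rw [h2, norm_one] at h
  exact lt_irrefl _ h

theorem exp_El {α : ℕ → ℂ} {p : ℕ} (hp : p.Prime) (h : ‖α p‖ = 1) (k : ℕ) {s : ℂ}
    (hs : 1 < s.re) : exp (-(El α k p s)) =
      ∏ i ∈ Finset.range (k + 1), (1 - bs α k p i * (p : ℂ) ^ (-s))⁻¹ := by
  unfold El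
  rw [← Finset.sum_neg_distrib, exp_sum]
  refine Finset.prod_congr rfl fun i _ => ?_
  rw [exp_neg, exp_log (fac_ne (bp_lt hp h k i hs))]

theorem El_hasSum {α : ℕ → ℂ} {p : ℕ} (hp : p.Prime) (h : ‖α p‖ = 1) (k : ℕ) {s : ℂ}
    (hs : 1 < s.re) :
    HasSum (fun n : ℕ => ch k (α p ^ n) * ((p : ℂ) ^ (-s)) ^ n / n) (-(El α k p s)) := by
  unfold El
  rw [← Finset.sum_neg_distrib]
  have h1 : ∀ i ∈ Finset.range (k + 1), HasSum (fun n : ℕ => (bs α k p i * (p : ℂ) ^ (-s)) ^ n / n)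
      (-log (1 - bs α k p i * (p : ℂ) ^ (-s))) := fun i _ =>
    hasSum_taylorSeries_neg_log (bp_lt hp h k i hs)
  refine (hasSum_sum h1).congr_fun ?_
  intro n
  rw [← ps_bs]
  unfold ps
  rw [Finset.sum_mul, Finset.sum_div]
  refine Finset.sum_congr rfl fun i _ => ?_
  rw [mul_pow]

theorem El_rel {α : ℕ → ℂ} {p : ℕ} (hp : p.Prime) (h : ‖α p‖ = 1) {k m : ℕ} {c : ℕ → ℤ}
    (hc : ∀ n : ℕ, 1 ≤ n → ch k (α p ^ n) = ∑ j ∈ Finset.range m, (c j : ℂ) * ch j (α p ^ n)) {s : ℂ}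
    (hs : 1 < s.re) : El α k p s = ∑ j ∈ Finset.range m, (c j : ℂ) * El α j p s := by
  have h1 := El_hasSum hp h k hs
  have h2 : HasSum (fun n : ℕ => ∑ j ∈ Finset.range m, (c j : ℂ) *
      (ch j (α p ^ n) * ((p : ℂ) ^ (-s)) ^ n / n))
      (∑ j ∈ Finset.range m, (c j : ℂ) * (-(El α j p s))) :=
    hasSum_sum fun j _ => (El_hasSum hp h j hs).mul_left _
  have h3 : (fun n : ℕ => ch k (α p ^ n) * ((p : ℂ) ^ (-s)) ^ n / n) =
      fun n : ℕ => ∑ j ∈ Finset.range m, (c j : ℂ) *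
      (ch j (α p ^ n) * ((p : ℂ) ^ (-s)) ^ n / n) := by
    funext n
    rcases Nat.eq_zero_or_pos n with h0 | h0
    · subst h0
      simp
    · rw [hc n h0, Finset.sum_mul, Finset.sum_div]
      refine Finset.sum_congr rfl fun j _ => ?_
      ring
  rw [h3] at h1
  have h4 := h1.unique h2
  simp only [mul_neg, Finset.sum_neg_distrib] at h4
  exact neg_injective h4

/-- the Euler product does not vanish -/
theorem euler_ne {S : Finset ℕ} {α : ℕ → ℂ} {k : ℕ} (hα : ∀ p : ℕ, p.Prime → p ∉ S → ‖α p‖ = 1)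
    {s : ℂ} (hs : 1 < s.re) {L : ℂ} (h : Tendsto (fun X : ℕ =>
    ∏ p ∈ (Finset.range X).filter (fun p => p.Prime ∧ p ∉ S),
      ∏ i ∈ Finset.range (k + 1), (1 - bs α k p i * (p : ℂ) ^ (-s))⁻¹) atTop (𝓝 L)) : L ≠ 0 := by
  have hsum : Summable fun n : ℕ => (n : ℝ) ^ (-s.re) := by
    have := Real.summable_nat_rpow (p := -s.re)
    rw [this]
    linarith
  set C : ℝ := ∑' n : ℕ, (n : ℝ) ^ (-s.re) with hC
  have h1 : ∀ X : ℕ, Real.exp (-((k + 1 : ℕ) * C)) ≤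
      ‖∏ p ∈ (Finset.range X).filter (fun p => p.Prime ∧ p ∉ S),
        ∏ i ∈ Finset.range (k + 1), (1 - bs α k p i * (p : ℂ) ^ (-s))⁻¹‖ := by
    intro X
    have h2 : ∀ p ∈ (Finset.range X).filter (fun p => p.Prime ∧ p ∉ S),
        Real.exp (-((k + 1 : ℕ) * (p : ℝ) ^ (-s.re))) ≤
          ‖∏ i ∈ Finset.range (k + 1), (1 - bs α k p i * (p : ℂ) ^ (-s))⁻¹‖ := by
      intro p hp
      rw [Finset.mem_filter] at hp
      obtain ⟨-, hpp, hpS⟩ := hp
      have h3 : ∀ i ∈ Finset.range (k + 1), Real.exp (-(p : ℝ) ^ (-s.re)) ≤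
          ‖(1 - bs α k p i * (p : ℂ) ^ (-s))⁻¹‖ := by
        intro i _
        have h4 : ‖1 - bs α k p i * (p : ℂ) ^ (-s)‖ ≤ Real.exp ((p : ℝ) ^ (-s.re)) := by
          refine (norm_sub_le _ _).trans ?_
          rw [norm_one, norm_mul, bs_norm (hα p hpp hpS), one_mul, pz_norm hpp]
          have := Real.add_one_le_exp ((p : ℝ) ^ (-s.re))
          linarith
        have h5 : 0 < ‖1 - bs α k p i * (p : ℂ) ^ (-s)‖ :=
          norm_pos_iff.2 (fac_ne (bp_lt hpp (hα p hpp hpS) k i hs))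
        rw [norm_inv, Real.exp_neg]
        exact inv_anti₀ h5 h4
      rw [norm_prod]
      calc Real.exp (-((k + 1 : ℕ) * (p : ℝ) ^ (-s.re))) =
          ∏ i ∈ Finset.range (k + 1), Real.exp (-(p : ℝ) ^ (-s.re)) := by
            rw [Finset.prod_const, Finset.card_range, ← Real.exp_nat_mul]
            congr 1
            ring
        _ ≤ _ := Finset.prod_le_prod (fun _ _ => (Real.exp_pos _).le) h3
    rw [norm_prod]
    calc Real.exp (-((k + 1 : ℕ) * C)) ≤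
        ∏ p ∈ (Finset.range X).filter (fun p => p.Prime ∧ p ∉ S),
          Real.exp (-((k + 1 : ℕ) * (p : ℝ) ^ (-s.re))) := by
          rw [← Real.exp_sum, Real.exp_le_exp, Finset.sum_neg_distrib, neg_le_neg_iff,
            ← Finset.mul_sum]
          refine mul_le_mul_of_nonneg_left ?_ (by positivity)
          exact hsum.sum_le_tsum _ fun n _ => by positivity
      _ ≤ _ := Finset.prod_le_prod (fun _ _ => (Real.exp_pos _).le) h2
  have h2 := ge_of_tendsto' h.norm h1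
  intro h0
  rw [h0, norm_zero] at h2
  exact absurd h2 (not_le.2 (Real.exp_pos _))

end Pool.Agent.N845.SP
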