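import Pool.Agent.N845.SP.Main

/-!
# Few values: power closure, roots of unity, parity
-/

set_option autoImplicit false

namespace Pool.Agent.N845.SP

open Filter Topology Complex Set Pool.Agent.N210.FV Pool.Agent.N210.FW

theorem bs_sym {α : ℕ → ℂ} (k p : ℕ) {x : ℂ} (hx : x ≠ 0) :
    (open Classical in ∑ i ∈ Finset.range (k + 1), if bs α k p i = x then (1 : ℝ) else 0) =
      (open Classical in ∑ i ∈ Finset.range (k + 1), if bs α k p i = x⁻¹ then (1 : ℝ) else 0) := by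
  classical
  rw [← Finset.sum_range_reflect]
  refine Finset.sum_congr rfl fun i hi => ?_
  rw [Finset.mem_range] at hi
  have e : bs α k p (k + 1 - 1 - i) = (bs α k p i)⁻¹ := by
    unfold bs
    rw [← zpow_neg]
    congr 1
    have : ((k + 1 - 1 - i : ℕ) : ℤ) = (k : ℤ) - i := by omega
    rw [this]
    ring
  have h : (bs α k p (k + 1 - 1 - i) = x) = (bs α k p i = x⁻¹) := by
    rw [e, eq_iff_iff]
    constructor
    · intro h
      rw [← h, inv_inv]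
    · intro h
      rw [h, inv_inv]
  simp only [h]

/-- real relations between the traces of the symmetric powers -/
theorem rel_sym {S : Finset ℕ} {α : ℕ → ℂ} {a : ℕ → ℝ} {K : ℕ} {μ : ℕ → List ℂ}
    {N D : ℕ → ℂ → ℂ} (hα : ∀ p : ℕ, p.Prime → p ∉ S → α p ≠ 0)
    (ha : ∀ p : ℕ, p.Prime → p ∉ S → α p + (α p)⁻¹ = a p)
    (hL : ∀ k ≤ K, LG S (Finset.range (k + 1)) (bs α k) (μ k) (N k) (D k)) (T : Finset ℕ)
    (V : Finset ℝ) (hT : ∀ p : ℕ, p.Prime → p ∉ T → a p ∈ V) (c : ℕ → ℝ)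
    (hc : ∀ v ∈ V, ∑ j ∈ Finset.range (K + 1), c j * xr j v = 0) :
    (∀ p : ℕ, p.Prime → p ∉ S → ∀ n : ℕ, 1 ≤ n → ∀ y : ℝ, α p ^ n + (α p ^ n)⁻¹ = (y : ℂ) →
      ∑ j ∈ Finset.range (K + 1), c j * xr j y = 0) ∧
    ∀ z : ℂ, ∑ j ∈ Finset.range (K + 1), c j * ((mo (gi (μ j)) (1 - z) : ℝ) -
      mo (gi (μ j)) z) = 0 := by
  classical
  set r₀ : ℝ := 1 + ∑ v ∈ V, |v| with hr₀
  have hs0 : 0 ≤ ∑ v ∈ V, |v| := Finset.sum_nonneg fun v _ => abs_nonneg _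
  have hr1 : 1 ≤ r₀ := by linarith
  obtain ⟨B, hB⟩ := exists_nat_ge (4 * (r₀ ^ K) ^ 2)
  set S' : Finset ℕ := S ∪ T ∪ Finset.range B with hS'
  have hSS : S ⊆ S' := fun p hp => Finset.mem_union_left _ (Finset.mem_union_left _ hp)
  have hnS : ∀ p : PS S', (p : ℕ) ∉ S := fun p hp => p.2.2 (hSS hp)
  have haV : ∀ p : PS S', a p ∈ V := fun p => hT p p.2.1 fun h =>
    p.2.2 (Finset.mem_union_left _ (Finset.mem_union_right _ h))
  have hpB : ∀ p : PS S', B ≤ (p : ℕ) := by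
    intro p
    by_contra h1
    push Not at h1
    exact p.2.2 (Finset.mem_union_right _ (Finset.mem_range.2 h1))
  have hα' : ∀ p : PS S', α p ≠ 0 := fun p => hα p p.2.1 (hnS p)
  have ha' : ∀ p : PS S', α p + (α p)⁻¹ = a p := fun p => ha p p.2.1 (hnS p)
  have hzn : ∀ p : PS S', 1 + ‖((a p : ℝ) : ℂ)‖ ≤ r₀ := by
    intro p
    rw [Complex.norm_real, Real.norm_eq_abs, hr₀]
    have h1 : |a p| ≤ ∑ v ∈ V, |v| :=
      Finset.single_le_sum (f := fun v => |v|) (fun v _ => abs_nonneg _) (haV p)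
    linarith
  have ht1 : ∀ p : PS S', ‖α p‖ ≤ r₀ := fun p => (root_bd (ha' p)).trans (hzn p)
  have ht2 : ∀ p : PS S', ‖(α p)⁻¹‖ ≤ r₀ := fun p =>
    (root_bd (u := (α p)⁻¹) (z := ((a p : ℝ) : ℂ)) (by
      rw [inv_inv, ← ha' p]
      ring)).trans (hzn p)
  have hl : ∀ p : PS S', 4 * (r₀ ^ K) ^ 2 ≤ (p : ℕ) := fun p =>
    hB.trans (by exact_mod_cast hpB p)
  have hb : ∀ k : Fin (K + 1), Bnd S' (ps (Finset.range ((k : ℕ) + 1)) (bs α k)) (K + 1)
      (r₀ ^ K) := fun k => bs_bnd hr1 ht1 ht2 hl (by omega)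
  obtain ⟨h1, h2⟩ := rel_all (J := Fin (K + 1)) (S := S) (S₁ := S')
    (Ix := fun k => Finset.range ((k : ℕ) + 1)) (β := fun k => bs α k) (μ := fun k => μ k)
    (N := fun k => N k) (D := fun k => D k) (c := fun k => c k) (fun k => hL k (by omega)) hSS hb
    (fun k p i hi => bs_le hr1 (ht1 p) (ht2 p) (by omega) hi) (fun p => by
      have h1 : ∀ k : Fin (K + 1), ps (Finset.range ((k : ℕ) + 1)) (bs α k) p 1 =
          (xr k (a p) : ℂ) := by
        intro k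
        rw [ps_bs, pow_one, ch_eq (hα' p) (ha' p)]
      simp only [h1]
      have h2 := hc (a p) (haV p)
      rw [← Fin.sum_univ_eq_sum_range (fun j => c j * xr j (a p))] at h2
      exact_mod_cast h2) (fun k p _ _ x hx => bs_sym k p hx)
  refine ⟨fun p hp hpS n hn y hy => ?_, fun z => ?_⟩
  · have h3 := h1 p hp hpS (n - 1)
    rw [Nat.sub_add_cancel hn] at h3
    have h4 : ∀ k : Fin (K + 1), ps (Finset.range ((k : ℕ) + 1)) (bs α k) p n =
        (xr k y : ℂ) := fun k => by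
      rw [ps_bs, ch_eq (pow_ne_zero _ (hα p hp hpS)) hy]
    simp only [h4] at h3
    rw [← Fin.sum_univ_eq_sum_range (fun j => c j * xr j y)]
    exact_mod_cast h3
  · rw [← Fin.sum_univ_eq_sum_range (fun j => c j * ((mo (gi (μ j)) (1 - z) : ℝ) -
      mo (gi (μ j)) z))]
    exact h2 z

theorem g1_pos {z : ℂ} (h : 0 < z.re) : g1 z = 0 :=
  mo_nz differentiable_Gammaℝ_inv (inv_ne_zero (Gammaℝ_ne_zero_of_re_pos h))

theorem g1_zero : g1 0 = 1 := by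
  rw [g1_step, g1_pos (by norm_num), if_pos rfl]

theorem g1_neg_one : g1 (-1) = 0 := by
  rw [g1_step, g1_pos (by norm_num), if_neg (by norm_num)]

theorem mo_mu0 (k δ : ℕ) (z : ℂ) : mo (gi (mu 0 k δ)) z = (k + 1) * g1 (z + δ) := by
  rw [mo_gi]
  unfold mu
  rw [List.map_map]
  have : ((fun m => g1 (z + m)) ∘ fun i : ℕ => (0 : ℂ) * ((k : ℂ) - 2 * i) + δ) =
      fun _ => g1 (z + δ) := by
    funext i
    simp
  rw [this]
  simp

/-- the polynomial with the given roots in terms of the characters -/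
theorem rel_poly (V : Finset ℝ) {K : ℕ} (hV : V.card ≤ K) : ∃ c : ℕ → ℝ, ∀ x : ℝ,
    ∏ v ∈ V, (x - v) = ∑ j ∈ Finset.range (K + 1), c j * xr j x := by
  obtain ⟨c, hc⟩ := exists_coef (R := ℝ) (K + 1) (∏ v ∈ V, (Polynomial.X - Polynomial.C v)) (by
    intro m hm
    apply Polynomial.coeff_eq_zero_of_natDegree_lt
    rw [Polynomial.natDegree_prod_of_monic _ _ fun v _ => Polynomial.monic_X_sub_C v]
    simp
    omega)
  refine ⟨c, fun x => ?_⟩
  rw [← show Polynomial.aeval x (∏ v ∈ V, (Polynomial.X - Polynomial.C v)) = ∏ v ∈ V, (x - v) by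
    simp [map_prod], hc x]
  simp

/-- **few values** -/
theorem few {S : Finset ℕ} {α : ℕ → ℂ} {a : ℕ → ℝ} {r : ℂ} {e K : ℕ}
    {N D : ℕ → ℂ → ℂ} (hα : ∀ p : ℕ, p.Prime → p ∉ S → α p ≠ 0)
    (ha : ∀ p : ℕ, p.Prime → p ∉ S → α p + (α p)⁻¹ = a p)
    (hL : ∀ k ≤ K, LG S (Finset.range (k + 1)) (bs α k) (mu r k ((e * k) % 2)) (N k) (D k))
    (T : Finset ℕ) (V : Finset ℝ) (hV : V.card ≤ K) (hT : ∀ p : ℕ, p.Prime → p ∉ T → a p ∈ V) :
    r = 0 ∧ (∀ p : ℕ, p.Prime → p ∉ S → ∀ n : ℕ, 1 ≤ n →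
      ∃ v ∈ V, α p ^ n + (α p ^ n)⁻¹ = (v : ℂ)) ∧ (e % 2 = 1 → (-2 : ℝ) ∈ V) := by
  classical
  have hr : r = 0 := by
    by_contra hr
    have hinf := main2 hr hα ha (fun k hk => by
      have h := hL k hk
      obtain ⟨l, l', q, ε, hq, hε, hl, hl', hf⟩ := h.fe
      exact ⟨h.diffN, h.diffD, h.order, h.ne, h.euler,
        ⟨_, l, l', q, ε, by omega, hq, hε, hl, hl', hf⟩⟩) V hV
    obtain ⟨p, hp, hpT⟩ := hinf.exists_notMem_finset T
    exact hp.2.2 (hT p hp.1 hpT)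
  subst hr
  obtain ⟨c, hc⟩ := rel_poly V hV
  obtain ⟨h1, h2⟩ := rel_sym hα ha hL T V hT c (fun v hv => by
    rw [← hc v]
    exact Finset.prod_eq_zero hv (sub_self v))
  refine ⟨rfl, fun p hp hpS n hn => ?_, fun he => ?_⟩
  · obtain ⟨y, hy⟩ := tr_real (hα p hp hpS) (ha p hp hpS) n
    have h3 := h1 p hp hpS n hn y hy
    rw [← hc y, Finset.prod_eq_zero_iff] at h3
    obtain ⟨v, hv, hv2⟩ := h3
    exact ⟨v, hv, by rw [hy, sub_eq_zero.1 hv2]⟩
  · have hmod : ∀ j : ℕ, (e * j) % 2 = j % 2 := fun j => by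
      rw [Nat.mul_mod, he, one_mul, Nat.mod_mod]
    simp only [mo_mu0, hmod] at h2
    have h3 := h2 1
    have h4 := h2 2
    have h5 : ∏ v ∈ V, ((-2 : ℝ) - v) = 0 := by
      rw [hc]
      simp only [xr_neg_two]
      have h6 : ∀ j ∈ Finset.range (K + 1), c j * ((-1) ^ j * ((j : ℝ) + 1)) =
          c j * ((((j + 1) * g1 (1 - 1 + ((j % 2 : ℕ) : ℂ)) : ℕ) : ℝ) -
            (((j + 1) * g1 (1 + ((j % 2 : ℕ) : ℂ)) : ℕ) : ℝ)) -
          c j * ((((j + 1) * g1 (1 - 2 + ((j % 2 : ℕ) : ℂ)) : ℕ) : ℝ) -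
            (((j + 1) * g1 (2 + ((j % 2 : ℕ) : ℂ)) : ℕ) : ℝ)) := by
        intro j _
        rcases Nat.even_or_odd j with hj | hj
        · have e1 : j % 2 = 0 := Nat.even_iff.1 hj
          have a1 : g1 (1 - 1 + ((0 : ℕ) : ℂ)) = 1 := by
            rw [show (1 - 1 + ((0 : ℕ) : ℂ)) = 0 by norm_num, g1_zero]
          have a2 : g1 (1 + ((0 : ℕ) : ℂ)) = 0 := g1_pos (by norm_num)
          have a3 : g1 (1 - 2 + ((0 : ℕ) : ℂ)) = 0 := by
            rw [show (1 - 2 + ((0 : ℕ) : ℂ)) = -1 by norm_num, g1_neg_one]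
          have a4 : g1 (2 + ((0 : ℕ) : ℂ)) = 0 := g1_pos (by norm_num)
          rw [e1, a1, a2, a3, a4, hj.neg_one_pow]
          push_cast
          ring
        · have e1 : j % 2 = 1 := Nat.odd_iff.1 hj
          have a1 : g1 (1 - 1 + ((1 : ℕ) : ℂ)) = 0 := g1_pos (by norm_num)
          have a2 : g1 (1 + ((1 : ℕ) : ℂ)) = 0 := g1_pos (by norm_num)
          have a3 : g1 (1 - 2 + ((1 : ℕ) : ℂ)) = 1 := by
            rw [show (1 - 2 + ((1 : ℕ) : ℂ)) = 0 by norm_num, g1_zero]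
          have a4 : g1 (2 + ((1 : ℕ) : ℂ)) = 0 := g1_pos (by norm_num)
          rw [e1, a1, a2, a3, a4, hj.neg_one_pow]
          push_cast
          ring
      rw [Finset.sum_congr rfl h6, Finset.sum_sub_distrib, h3, h4, sub_zero]
    rw [Finset.prod_eq_zero_iff] at h5
    obtain ⟨v, hv, hv2⟩ := h5
    rwa [show (-2 : ℝ) = v by linarith]

end Pool.Agent.N845.SP
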