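import Pool.Agent.N845.SP.Core

/-!
# All symmetric powers from the first few
-/

set_option autoImplicit false

namespace Pool.Agent.N845.SP

open Filter Topology Complex Set Pool.Agent.N210.FV Pool.Agent.N210.FW

/-- exponents of the gamma factor of `Sym^k` -/
def gj (e k : ℕ) : ℤ × ℤ := if (e * k) % 2 = 0 then ((k : ℤ) + 1, 0) else (0, (k : ℤ) + 1)

theorem xr_two : ∀ k : ℕ, xr k 2 = (k : ℝ) + 1
  | 0 => by simp [xr]
  | 1 => by norm_num [xr]
  | k + 2 => by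
    rw [xr, xr_two (k + 1), xr_two k]
    push_cast
    ring

theorem xr_neg_two : ∀ k : ℕ, xr k (-2) = (-1) ^ k * ((k : ℝ) + 1)
  | 0 => by simp [xr]
  | 1 => by norm_num [xr]
  | k + 2 => by
    rw [xr, xr_neg_two (k + 1), xr_neg_two k]
    push_cast
    ring

theorem gj_add (e k : ℕ) : (gj e k).1 + (gj e k).2 = (k : ℤ) + 1 := by
  unfold gj
  split_ifs <;> simp

theorem gj_even {e : ℕ} (he : e % 2 = 0) (k : ℕ) : (gj e k).2 = 0 := by
  unfold gj
  rw [if_pos]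
  rw [Nat.mul_mod, he, zero_mul, Nat.zero_mod]

theorem gj_odd {e : ℕ} (he : e % 2 = 1) (k : ℕ) :
    (gj e k).1 - (gj e k).2 = (-1) ^ k * ((k : ℤ) + 1) := by
  unfold gj
  have h1 : (e * k) % 2 = k % 2 := by rw [Nat.mul_mod, he, one_mul, Nat.mod_mod]
  rw [h1]
  split_ifs with h
  · rw [(Nat.even_iff.2 h).neg_one_pow]
    simp
  · rw [(Nat.odd_iff.2 (by omega)).neg_one_pow]
    simp

theorem gj_sum {e k m : ℕ} {c : ℕ → ℤ} (h1 : (k : ℤ) + 1 = ∑ j ∈ Finset.range m, c j * ((j : ℤ) + 1))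
    (h2 : e % 2 = 1 → (-1) ^ k * ((k : ℤ) + 1) =
      ∑ j ∈ Finset.range m, c j * ((-1) ^ j * ((j : ℤ) + 1))) :
    ∑ j ∈ Finset.range m, c j • gj e j = gj e k := by
  have a1 : (∑ j ∈ Finset.range m, c j • gj e j).1 = ∑ j ∈ Finset.range m, c j * (gj e j).1 := by
    rw [Prod.fst_sum]
    rfl
  have a2 : (∑ j ∈ Finset.range m, c j • gj e j).2 = ∑ j ∈ Finset.range m, c j * (gj e j).2 := by
    rw [Prod.snd_sum]
    rfl
  have b1 : ∑ j ∈ Finset.range m, c j * (gj e j).1 + ∑ j ∈ Finset.range m, c j * (gj e j).2 =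
      (gj e k).1 + (gj e k).2 := by
    rw [gj_add, h1, ← Finset.sum_add_distrib]
    refine Finset.sum_congr rfl fun j _ => ?_
    rw [← gj_add e j]
    ring
  have hmod : e % 2 = 0 ∨ e % 2 = 1 := by omega
  rcases hmod with he | he
  · have b2 : ∑ j ∈ Finset.range m, c j * (gj e j).2 = 0 :=
      Finset.sum_eq_zero fun j _ => by rw [gj_even he, mul_zero]
    have b3 := gj_even he k
    refine Prod.ext ?_ ?_
    · rw [a1]
      linarith
    · rw [a2, b2, b3]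
  · have b2 : ∑ j ∈ Finset.range m, c j * (gj e j).1 - ∑ j ∈ Finset.range m, c j * (gj e j).2 =
        (gj e k).1 - (gj e k).2 := by
      rw [gj_odd he, h2 he, ← Finset.sum_sub_distrib]
      refine Finset.sum_congr rfl fun j _ => ?_
      rw [← gj_odd he j]
      ring
    refine Prod.ext ?_ ?_
    · rw [a1]
      linarith
    · rw [a2]
      linarith

/-- **all symmetric powers**, for a power-closed set of traces -/
theorem core {P : Prop} {S : Finset ℕ} {α : ℕ → ℂ} {e K : ℕ} {N D : ℕ → ℂ → ℂ}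
    (hα : ∀ p : ℕ, p.Prime → p ∉ S → α p ≠ 0) (V : Finset ℝ) (hV : V.card ≤ K + 1)
    (hcl : ∀ p : ℕ, p.Prime → p ∉ S → ∀ n : ℕ, 1 ≤ n → ∃ v ∈ V, α p ^ n + (α p ^ n)⁻¹ = (v : ℂ))
    (h2 : P → e % 2 = 1 → (-2 : ℝ) ∈ V)
    (hN : ∀ j ≤ K, Nice P S (El α j) (gj e j) (N j) (D j)) (k : ℕ) :
    ∃ N' D', Nice P S (El α k) (gj e k) N' D' := by
  classical
  have hord : ∀ p : ℕ, p.Prime → p ∉ S → 0 < orderOf (α p) := fun p hp hpS =>
    (root_unity (hα p hp hpS) (hcl p hp hpS)).1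
  have hnorm : ∀ p : ℕ, p.Prime → p ∉ S → ‖α p‖ = 1 := fun p hp hpS =>
    norm_eq_one_of_pow_eq_one (pow_orderOf_eq_one (α p)) (hord p hp hpS).ne'
  set V' : Finset ℝ := V.filter fun v => (∃ p n : ℕ, p.Prime ∧ p ∉ S ∧ 1 ≤ n ∧
    α p ^ n + (α p ^ n)⁻¹ = (v : ℂ)) ∨ v = -2 ∨ v = 2 with hV'
  have hV'V : V'.card ≤ K + 1 := (Finset.card_filter_le _ _).trans hV
  have hmem : ∀ p : ℕ, p.Prime → p ∉ S → ∀ n : ℕ, 1 ≤ n →
      ∃ v ∈ V', α p ^ n + (α p ^ n)⁻¹ = (v : ℂ) := by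
    intro p hp hpS n hn
    obtain ⟨v, hv, hv2⟩ := hcl p hp hpS n hn
    exact ⟨v, Finset.mem_filter.2 ⟨hv, Or.inl ⟨p, n, hp, hpS, hn, hv2⟩⟩, hv2⟩
  obtain ⟨p₀, hp₀S, hp₀⟩ : ∃ p : ℕ, p ∉ S ∧ p.Prime := by
    obtain ⟨p, hp1, hp2⟩ := Nat.exists_infinite_primes (S.sup id + 1)
    refine ⟨p, fun h => ?_, hp2⟩
    have : p ≤ S.sup id := Finset.le_sup (f := id) h
    omega
  have hdos : (2 : ℝ) ∈ V' := by
    obtain ⟨v, hv, hv2⟩ := hmem p₀ hp₀ hp₀S (orderOf (α p₀)) (hord p₀ hp₀ hp₀S)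
    rw [pow_orderOf_eq_one] at hv2
    have h3 : v = 2 := by
      have : ((v : ℝ) : ℂ) = ((2 : ℝ) : ℂ) := by
        rw [← hv2]
        norm_num
      exact_mod_cast this
    rwa [h3] at hv
  obtain ⟨Pz, hPm, hPd, hPe⟩ := int_rel (V := V') (by
    intro v hv
    obtain ⟨-, ⟨p, n, hp, hpS, hn, hv2⟩ | h3 | h3⟩ := Finset.mem_filter.1 hv
    · refine ⟨α p ^ n, orderOf (α p), hord p hp hpS, ?_, hv2, fun m hm => ?_⟩
      · rw [← pow_mul, mul_comm, pow_mul, pow_orderOf_eq_one, one_pow]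
      · obtain ⟨w, hw, hw2⟩ := hmem p hp hpS (n * m) (Nat.mul_pos hn hm)
        exact ⟨w, hw, by rw [← pow_mul]; exact hw2⟩
    · refine ⟨-1, 2, by norm_num, by norm_num, by rw [h3]; norm_num, fun m _ => ?_⟩
      rcases Nat.even_or_odd m with hm | hm
      · exact ⟨2, hdos, by rw [hm.neg_one_pow]; norm_num⟩
      · exact ⟨-2, h3 ▸ hv, by rw [hm.neg_one_pow]; norm_num⟩
    · exact ⟨1, 1, by norm_num, by norm_num, by rw [h3]; norm_num, fun m _ =>
        ⟨2, hdos, by norm_num⟩⟩)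
  obtain ⟨c, hc⟩ := char_rel hPm k
  rw [hPd] at hc
  have hroot : ∀ v ∈ V', Polynomial.aeval v Pz = 0 := by
    intro v hv
    rw [hPe]
    exact Finset.prod_eq_zero hv (sub_self v)
  obtain ⟨N', D', hN'⟩ := Nice.sum (n := V'.card) (E := El α) (g := gj e)
    (fun j hj => hN j (by omega)) c
  refine ⟨N', D', ((hN'.congr (E' := El α k) fun p hp hpS s hs => ?_).congr_g fun hP => ?_)⟩
  · symm
    refine El_rel hp (hnorm p hp hpS) (fun n hn => ?_) hs
    obtain ⟨v, hv, hv2⟩ := hmem p hp hpS n hn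
    have h3 := hc v (hroot v hv)
    have h4 : ∀ j, ch j (α p ^ n) = (xr j v : ℂ) := fun j =>
      ch_eq (pow_ne_zero _ (hα p hp hpS)) hv2 j
    simp only [h4]
    exact_mod_cast h3
  · refine gj_sum ?_ fun he => ?_
    · have h3 := hc 2 (hroot 2 hdos)
      simp only [xr_two] at h3
      exact_mod_cast h3
    · have hm2 : (-2 : ℝ) ∈ V' := Finset.mem_filter.2 ⟨h2 hP he, Or.inr (Or.inl rfl)⟩
      have h3 := hc (-2) (hroot _ hm2)
      simp only [xr_neg_two] at h3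
      exact_mod_cast h3

theorem gi_mu0 (k δ : ℕ) (s : ℂ) : gi (mu 0 k δ) s = Gm δ s ^ (k + 1) := by
  unfold gi mu Gm
  rw [List.map_map]
  have : ((fun m => (Gammaℝ (s + m))⁻¹) ∘ fun i : ℕ => (0 : ℂ) * ((k : ℂ) - 2 * i) + δ) =
      fun _ => (Gammaℝ (s + δ))⁻¹ := by
    funext i
    simp
  rw [this]
  simp

theorem LG.toNice {S : Finset ℕ} {α : ℕ → ℂ} {e k : ℕ} {r : ℂ} {N D : ℂ → ℂ}
    (hα : ∀ p : ℕ, p.Prime → p ∉ S → ‖α p‖ = 1)
    (h : LG S (Finset.range (k + 1)) (bs α k) (mu r k ((e * k) % 2)) N D) {P : Prop}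
    (hP : P → r = 0) : Nice P S (El α k) (gj e k) N D := by
  obtain ⟨C, hC⟩ := h.order
  refine ⟨h.diffN, h.diffD, ⟨max C 0, le_max_right _ _, fun s => ?_⟩, fun s hs h0 => ?_, h.ne,
    fun s hs => ?_, fun hP' => ?_⟩
  · have h1 : Real.exp (C * (1 + ‖s‖) ^ (3 / 2 : ℝ)) ≤
        Real.exp (max C 0 * (1 + ‖s‖) ^ (3 / 2 : ℝ)) := by
      gcongr
      exact le_max_left _ _
    exact ⟨(hC s).1.trans h1, (hC s).2.trans h1⟩
  · have h1 := euler_ne hα hs (h.euler s hs)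
    apply h1
    rw [h0, zero_div]
  · refine (h.euler s hs).congr fun X => ?_
    refine Finset.prod_congr rfl fun p hp => ?_
    rw [Finset.mem_filter] at hp
    rw [exp_El hp.2.1 (hα p hp.2.1 hp.2.2) k hs]
  · obtain ⟨l, l', q, ε, hq, hε, hl, hl', hf⟩ := h.fe
    rw [hP hP'] at hf
    simp only [gi_mu0] at hf
    have hmod : (e * k) % 2 = 0 ∨ (e * k) % 2 = 1 := by omega
    rcases hmod with h0 | h0
    · rw [h0] at hf
      refine ⟨k + 1, 0, 0, 0, l, l', q, ε, ?_, ?_, hq, hε, hl, hl', fun s => ?_⟩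
      · unfold gj
        rw [if_pos h0]
        push_cast
        ring
      · unfold gj
        rw [if_pos h0]
        rfl
      · simp only [pow_zero, mul_one]
        exact hf s
    · rw [h0] at hf
      refine ⟨0, 0, k + 1, 0, l, l', q, ε, ?_, ?_, hq, hε, hl, hl', fun s => ?_⟩
      · unfold gj
        rw [if_neg (by omega)]
        rfl
      · unfold gj
        rw [if_neg (by omega)]
        push_cast
        ring
      · simp only [pow_zero, mul_one, one_mul]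
        exact hf s

theorem Nice.toLG {S : Finset ℕ} {α : ℕ → ℂ} {e k : ℕ} {N D : ℂ → ℂ}
    (hα : ∀ p : ℕ, p.Prime → p ∉ S → ‖α p‖ = 1) {P : Prop} (h : Nice P S (El α k) (gj e k) N D)
    (hP : P) : LG S (Finset.range (k + 1)) (bs α k) (mu 0 k ((e * k) % 2)) N D := by
  obtain ⟨C, -, hC⟩ := h.order
  refine ⟨h.diffN, h.diffD, ⟨C, hC⟩, h.neD, fun s hs => ?_, ?_⟩
  · refine (h.euler s hs).congr fun X => ?_
    refine Finset.prod_congr rfl fun p hp => ?_
    rw [Finset.mem_filter] at hp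
    rw [exp_El hp.2.1 (hα p hp.2.1 hp.2.2) k hs]
  · simp only [gi_mu0]
    have hmod : (e * k) % 2 = 0 ∨ (e * k) % 2 = 1 := by omega
    rcases hmod with h0 | h0
    · rw [h0]
      obtain ⟨l, l', q, ε, hq, hε, hl, hl', hf⟩ := h.fe' hP (x := k + 1) (y := 0)
        (by unfold gj; rw [if_pos h0]; push_cast; ring) (by unfold gj; rw [if_pos h0]; rfl)
      refine ⟨l, l', q, ε, hq, hε, hl, hl', fun s => ?_⟩
      have := hf s
      simpa only [pow_zero, mul_one] using this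
    · rw [h0]
      obtain ⟨l, l', q, ε, hq, hε, hl, hl', hf⟩ := h.fe' hP (x := 0) (y := k + 1)
        (by unfold gj; rw [if_neg (by omega)]; rfl)
        (by unfold gj; rw [if_neg (by omega)]; push_cast; ring)
      refine ⟨l, l', q, ε, hq, hε, hl, hl', fun s => ?_⟩
      have := hf s
      simpa only [pow_zero, one_mul] using this

end Pool.Agent.N845.SP
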