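import Pool.Agent.N210.FW.Thm

/-!
# Real relations between L-functions hold at every unramified prime and at infinity
-/

set_option autoImplicit false

namespace Pool.Agent.N845.SP

open Filter Topology Complex Set Pool.Agent.N210.FV Pool.Agent.N210.FW

/-- the analytic properties of the L-function `N/D` with parameters `β p i`, `i ∈ I`, and archimedean
parameters `μ` -/
structure LG (S : Finset ℕ) (I : Finset ℕ) (β : ℕ → ℕ → ℂ) (μ : List ℂ) (N D : ℂ → ℂ) : Prop where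
  diffN : Differentiable ℂ N
  diffD : Differentiable ℂ D
  order : ∃ C : ℝ, ∀ s, ‖N s‖ ≤ Real.exp (C * (1 + ‖s‖) ^ (3 / 2 : ℝ)) ∧
    ‖D s‖ ≤ Real.exp (C * (1 + ‖s‖) ^ (3 / 2 : ℝ))
  ne : ∀ s : ℂ, 1 < s.re → D s ≠ 0
  euler : ∀ s : ℂ, 1 < s.re → Tendsto (fun X : ℕ =>
    ∏ p ∈ (Finset.range X).filter (fun p => p.Prime ∧ p ∉ S),
      ∏ i ∈ I, (1 - β p i * (p : ℂ) ^ (-s))⁻¹) atTop (𝓝 (N s / D s))
  fe : ∃ (l l' : List (ℕ × ℂ)) (q : ℝ) (ε : ℂ), 0 < q ∧ ε ≠ 0 ∧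
    (∀ x ∈ l, x.1.Prime ∧ x.1 ∈ S) ∧ (∀ x ∈ l', x.1.Prime ∧ x.1 ∈ S) ∧
    ∀ s, (q : ℂ) ^ s * gi μ (1 - s) * ef l (1 - s) * ef l' s * (N s * D (1 - s)) =
      ε * (q : ℂ) ^ (1 - s) * gi μ s * ef l s * ef l' (1 - s) * (N (1 - s) * D s)

/-! ### orders of Euler factors -/

theorem mo_simple {f : ℂ → ℂ} (hf : Differentiable ℂ f) {z : ℂ} (h0 : f z = 0)
    (h1 : deriv f z ≠ 0) : mo f z = 1 := by
  have hd : HasDerivAt f (deriv f z) z := (hf z).hasDerivAt
  have hn : ∃ s, f s ≠ 0 := by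
    by_contra hcon
    push Not at hcon
    apply h1
    have : f = fun _ => 0 := funext hcon
    rw [this, deriv_const]
  have h2 := mo_lim hf hn z
  have h3 : Tendsto (fun u => (u - z)⁻¹ * f u) (𝓝[≠] z) (𝓝 (deriv f z)) := by
    have := hasDerivAt_iff_tendsto_slope.1 hd
    refine this.congr' ?_
    filter_upwards [self_mem_nhdsWithin] with u _
    rw [slope_def_field, h0, sub_zero]
    ring
  have h4 : Tendsto (deriv f) (𝓝[≠] z) (𝓝 (deriv f z)) := by
    have : Differentiable ℂ (deriv f) := fun x => (hf.analyticAt x).deriv.differentiableAt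
    exact this.continuous.continuousAt.tendsto.mono_left nhdsWithin_le_nhds
  have h5 : Tendsto (fun u => ((u - z)⁻¹ * f u)⁻¹ * deriv f u) (𝓝[≠] z)
      (𝓝 ((deriv f z)⁻¹ * deriv f z)) := (h3.inv₀ h1).mul h4
  rw [inv_mul_cancel₀ h1] at h5
  have h6 : Tendsto (fun u => (u - z) * logDeriv f u) (𝓝[≠] z) (𝓝 1) := by
    refine h5.congr' ?_
    filter_upwards [self_mem_nhdsWithin] with u _
    rw [logDeriv_apply, mul_inv, inv_inv]
    ring
  have h7 := tendsto_nhds_unique h2 h6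
  exact_mod_cast h7

theorem mo_one {p : ℕ} (hp : 1 < p) (b z : ℂ) :
    mo (fun s : ℂ => 1 - b * (p : ℂ) ^ (-s)) z =
      (open Classical in if b = (p : ℂ) ^ z then 1 else 0) := by
  classical
  have hp0 : (p : ℂ) ≠ 0 := by
    have : p ≠ 0 := by omega
    exact_mod_cast this
  have hl : 0 < Real.log p := Real.log_pos (by exact_mod_cast hp)
  have hpz : (p : ℂ) ^ z ≠ 0 := by
    rw [cpow_def_of_ne_zero hp0]
    exact exp_ne_zero _
  have hf : Differentiable ℂ fun s : ℂ => 1 - b * (p : ℂ) ^ (-s) := ef_one_diff (by omega) b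
  split_ifs with h
  · refine mo_simple hf ?_ ?_
    · rw [h, cpow_neg, mul_inv_cancel₀ hpz, sub_self]
    · have h1 : HasDerivAt (fun s : ℂ => 1 - b * (p : ℂ) ^ (-s))
          (-(b * ((p : ℂ) ^ (-z) * log p * -1))) z := by
        have h2 : HasDerivAt (fun s : ℂ => (p : ℂ) ^ (-s)) ((p : ℂ) ^ (-z) * log p * -1) z :=
          (hasDerivAt_neg z).const_cpow (Or.inl hp0)
        exact (h2.const_mul b).const_sub 1
      rw [h1.deriv, h, cpow_neg]
      have h3 : Complex.log (p : ℂ) ≠ 0 := by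
        rw [← natCast_log]
        exact_mod_cast hl.ne'
      have h4 : -((p : ℂ) ^ z * (((p : ℂ) ^ z)⁻¹ * log p * -1)) = log p := by
        field_simp
      rw [h4]
      exact h3
  · refine mo_nz hf fun h1 => h ?_
    rw [cpow_neg] at h1
    field_simp at h1
    linear_combination -h1

theorem mo_ef {l : List (ℕ × ℂ)} (hl : ∀ x ∈ l, 1 < x.1) (z : ℂ) :
    mo (ef l) z = (l.map fun x => (open Classical in if x.2 = (x.1 : ℂ) ^ z then 1 else 0)).sum := by
  classical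
  induction l with
  | nil =>
    have : ef [] = fun _ => 1 := by
      funext s
      unfold ef
      simp
    rw [this]
    exact mo_nz (differentiable_const _) one_ne_zero
  | cons a l ih =>
    have ha := hl a List.mem_cons_self
    have hl' : ∀ x ∈ l, 1 < x.1 := fun x hx => hl x (List.mem_cons_of_mem _ hx)
    have e : ef (a :: l) = fun s => (1 - a.2 * (a.1 : ℂ) ^ (-s)) * ef l s := by
      funext s
      unfold ef
      simp
    have hn : ∃ s : ℂ, 1 - a.2 * (a.1 : ℂ) ^ (-s) ≠ 0 := by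
      obtain ⟨u, hu⟩ := (ef_ev (l := [a]) (by simpa using ha) 0).exists
      refine ⟨u, ?_⟩
      simpa [ef] using hu
    rw [e, mo_mul (ef_one_diff (by omega) a.2) hn (ef_ent hl').diff (ef_ent hl').ne, ih hl',
      List.map_cons, List.sum_cons, mo_one ha]

theorem mo_lst {I : Finset ℕ} {β : ℕ → ℕ → ℂ} {S S' : Finset ℕ} (z : ℂ) :
    mo (ef (lst I β S S')) z = ∑ p ∈ (S' \ S).filter Nat.Prime, ∑ i ∈ I,
      (open Classical in if β p i = (p : ℂ) ^ z then 1 else 0) := by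
  classical
  rw [mo_ef fun x hx => (lst_mem hx).1.one_lt]
  unfold lst
  rw [List.map_map, Finset.sum_map_toList, Finset.sum_product]
  rfl

/-! ### separation of the primes -/

/-- a function with few values of `p₀^z` on its support is not killed by other periods -/
theorem sep {p₀ : ℕ} (hp₀ : p₀.Prime) (Ls : List ℕ) (hLs : ∀ p ∈ Ls, p.Prime ∧ p ≠ p₀)
    {X : Finset ℂ} {φ : ℂ → ℝ} (hX : ∀ z, φ z ≠ 0 → (p₀ : ℂ) ^ z ∈ X)
    (hk : Kill (Ls.map fun p : ℕ => 2 * Real.pi / Real.log p) φ) (z : ℂ) : φ z = 0 := by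
  classical
  have hl0 : 0 < Real.log p₀ := Real.log_pos (by exact_mod_cast hp₀.one_lt)
  have hp0 : (p₀ : ℂ) ≠ 0 := by exact_mod_cast hp₀.ne_zero
  have hexp : ∀ u : ℂ, (p₀ : ℂ) ^ u = exp (((Real.log p₀ : ℝ) : ℂ) * u) := by
    intro u
    rw [cpow_def_of_ne_zero hp0, ← natCast_log]
  induction Ls generalizing X φ z with
  | nil => exact hk z
  | cons p Ls ih =>
    obtain ⟨hp, hne⟩ := hLs p List.mem_cons_self
    have hl : 0 < Real.log p := Real.log_pos (by exact_mod_cast hp.one_lt)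
    set T : ℝ := 2 * Real.pi / Real.log p with hT
    rw [List.map_cons] at hk
    unfold Kill at hk
    rw [← hT] at hk
    have hper : ∀ w, φ (w + T * I) - φ w = 0 := fun w =>
      ih (fun q hq => hLs q (List.mem_cons_of_mem _ hq))
        (X := X ∪ X.image fun x => x * (p₀ : ℂ) ^ (-(T * I))) (by
          intro w hw
          by_cases h1 : φ w = 0
          · have h2 : φ (w + T * I) ≠ 0 := by
              intro h3
              apply hw
              rw [h1, h3, sub_zero]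
            refine Finset.mem_union_right _ (Finset.mem_image.2 ⟨_, hX _ h2, ?_⟩)
            rw [← cpow_add _ _ hp0]
            congr 1
            ring
          · exact Finset.mem_union_left _ (hX w h1)) hk w
    have h2 : ∀ n : ℕ, φ (z + (n * T : ℝ) * I) = φ z := by
      intro n
      induction n with
      | zero => simp
      | succ n ihn =>
        have h3 := hper (z + (n * T : ℝ) * I)
        have e : z + ((n * T : ℝ) : ℂ) * I + T * I = z + (((n + 1 : ℕ) * T : ℝ) : ℂ) * I := by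
          push_cast
          ring
        rw [e] at h3
        rw [← ihn]
        linarith
    by_contra hz
    have h3 : ∀ n : ℕ, (p₀ : ℂ) ^ (z + (n * T : ℝ) * I) ∈ X := fun n => hX _ (by rw [h2 n]; exact hz)
    obtain ⟨m, n, hmn, heq⟩ : ∃ m n : ℕ, m < n ∧
        (p₀ : ℂ) ^ (z + (m * T : ℝ) * I) = (p₀ : ℂ) ^ (z + (n * T : ℝ) * I) := by
      obtain ⟨m, n, hne, h4⟩ := Finite.exists_ne_map_eq_of_infinite
        (fun n : ℕ => (⟨(p₀ : ℂ) ^ (z + (n * T : ℝ) * I), h3 n⟩ : X))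
      have h5 := congrArg Subtype.val h4
      rcases lt_or_gt_of_ne hne with h6 | h6
      · exact ⟨m, n, h6, h5⟩
      · exact ⟨n, m, h6, h5.symm⟩
    rw [hexp, hexp, exp_eq_exp_iff_exists_int] at heq
    obtain ⟨k, hk⟩ := heq
    have h4 := congrArg Complex.im hk
    simp only [mul_im, add_im, ofReal_re, ofReal_im, add_re, mul_re, I_re, I_im, mul_zero, mul_one,
      zero_mul, add_zero, sub_zero, intCast_re, intCast_im, re_ofNat, im_ofNat] at h4
    have h5 : ((n : ℝ) - m) * Real.log p₀ = (-k : ℤ) * Real.log p := by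
      rw [hT] at h4
      field_simp at h4
      push_cast
      have hpi := Real.pi_pos
      have h6 : Real.pi * (((n : ℝ) - m) * Real.log p₀ - (-k) * Real.log p) = 0 := by
        nlinarith
      rcases mul_eq_zero.1 h6 with h7 | h7
      · exact absurd h7 hpi.ne'
      · linarith
    have h6 : 0 < (n : ℝ) - m := by
      have : (m : ℝ) < n := by exact_mod_cast hmn
      linarith
    have h7 : (0 : ℝ) < (-k : ℤ) := by
      have h8 : 0 < ((-k : ℤ) : ℝ) * Real.log p := by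
        rw [← h5]
        positivity
      by_contra hcon
      push Not at hcon
      have := mul_nonpos_of_nonpos_of_nonneg hcon hl.le
      linarith
    have h8 : (0 : ℤ) < -k := by exact_mod_cast h7
    obtain ⟨b, hb⟩ := Int.eq_ofNat_of_zero_le h8.le
    rw [hb] at h5
    have h9 : ((n - m : ℕ) : ℝ) * Real.log p₀ = (b : ℕ) * Real.log p := by
      rw [Nat.cast_sub hmn.le, h5]
      simp
    exact hne (prime_pow_log hp₀ hp (a := n - m) (by omega) h9).1.symm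

/-! ### the principle -/

theorem LG.entD {S I : Finset ℕ} {β : ℕ → ℕ → ℂ} {μ : List ℂ} {N D : ℂ → ℂ}
    (h : LG S I β μ N D) : Ent D := by
  obtain ⟨C, hC⟩ := h.order
  exact ⟨h.diffD, ⟨2, h.ne 2 (by norm_num)⟩, C, fun s => (hC s).2⟩

theorem LG.entN {S S' I : Finset ℕ} {β : ℕ → ℕ → ℂ} {μ : List ℂ} {N D : ℂ → ℂ} {M ρ : ℝ}
    (h : LG S I β μ N D) (hSS : S ⊆ S') (hb : Bnd S' (ps I β) M ρ)
    (hβ : ∀ p : PS S', ∀ i ∈ I, ‖β p i‖ ≤ ρ) : Ent N := by
  have hne : ∃ s, N s ≠ 0 := by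
    have h1 := nd_eq hSS hb hβ h.diffN h.diffD h.ne h.euler (s := 2) (by norm_num)
    refine ⟨2, fun h0 => ?_⟩
    rw [h0, zero_mul] at h1
    exact mul_ne_zero (h.ne 2 (by norm_num)) (exp_ne_zero _) h1.symm
  obtain ⟨C, hC⟩ := h.order
  exact ⟨h.diffN, hne, C, fun s => (hC s).1⟩

theorem LG.toLF0 {S S' I : Finset ℕ} {β : ℕ → ℕ → ℂ} {μ : List ℂ} {N D : ℂ → ℂ} {M ρ : ℝ}
    (h : LG S I β μ N D) (hSS : S ⊆ S') (hb : Bnd S' (ps I β) M ρ)
    (hβ : ∀ p : PS S', ∀ i ∈ I, ‖β p i‖ ≤ ρ) :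
    LF0 S' (ps I β) (fun s => N s * ef (lst I β S S') s) D := by
  have hl1 : ∀ x ∈ lst I β S S', 1 < x.1 := fun x hx => (lst_mem hx).1.one_lt
  refine ⟨(h.entN hSS hb hβ).mul (ef_ent hl1), h.entD, fun s hs => ?_, ?_⟩
  · exact ld_eul hSS hb hβ h.diffN h.diffD h.ne h.euler hs
  · obtain ⟨l, l', q, ε, hq, hε, hl, hl', hfe⟩ := h.fe
    refine ⟨μ, l ++ lst I β S S', l', q, ε, hq, hε, ?_, ?_, ?_⟩
    · intro x hx
      rcases List.mem_append.1 hx with h1 | h1
      · exact ⟨(hl x h1).1, hSS (hl x h1).2⟩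
      · exact lst_mem h1
    · intro x hx
      exact ⟨(hl' x hx).1, hSS (hl' x hx).2⟩
    · intro s
      rw [ef_append, ef_append]
      linear_combination (ef (lst I β S S') s * ef (lst I β S S') (1 - s)) * hfe s

/-- periods of the primes -/
noncomputable def per (F : Finset ℕ) : List ℝ := F.toList.map fun p : ℕ => 2 * Real.pi / Real.log p

theorem per_pos {F : Finset ℕ} (hF : ∀ p ∈ F, p.Prime) : ∀ t ∈ per F, 0 < t := by
  intro t ht
  unfold per at ht
  rw [List.mem_map] at ht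
  obtain ⟨p, hp, rfl⟩ := ht
  rw [Finset.mem_toList] at hp
  have : 0 < Real.log p := Real.log_pos (by exact_mod_cast (hF p hp).one_lt)
  positivity

theorem per_mem {F : Finset ℕ} {p : ℕ} (hp : p ∈ F) : 2 * Real.pi / Real.log p ∈ per F :=
  List.mem_map.2 ⟨p, Finset.mem_toList.2 hp, rfl⟩

section

variable {J : Type*} [Fintype J] {S S₁ : Finset ℕ} {Ix : J → Finset ℕ}
    {β : J → ℕ → ℕ → ℂ} {μ : J → List ℂ} {N D : J → ℂ → ℂ} {c : J → ℝ} {M ρ : ℝ}

/-- multiplicity of the parameter `x` at the prime `p` in the combination -/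
noncomputable def Bm (Ix : J → Finset ℕ) (β : J → ℕ → ℕ → ℂ) (c : J → ℝ) (p : ℕ) (x : ℂ) : ℝ :=
  ∑ j, c j * (open Classical in ∑ i ∈ Ix j, if β j p i = x then (1 : ℝ) else 0)

/-- the contribution of `p` to the orders -/
noncomputable def ph (Ix : J → Finset ℕ) (β : J → ℕ → ℕ → ℂ) (c : J → ℝ) (p : ℕ) (z : ℂ) : ℝ :=
  Bm Ix β c p ((p : ℂ) ^ z) - Bm Ix β c p ((p : ℂ) ^ (1 - z))

theorem Bm_fin (p : ℕ) : ∃ X : Finset ℂ, ∀ x, Bm Ix β c p x ≠ 0 → x ∈ X := by
  classical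
  refine ⟨Finset.univ.biUnion fun j => (Ix j).image fun i => β j p i, fun x hx => ?_⟩
  by_contra hcon
  apply hx
  refine Finset.sum_eq_zero fun j _ => ?_
  rw [Finset.sum_eq_zero, mul_zero]
  intro i hi
  rw [if_neg]
  intro h1
  apply hcon
  rw [Finset.mem_biUnion]
  exact ⟨j, Finset.mem_univ _, Finset.mem_image.2 ⟨i, hi, h1⟩⟩

theorem ph_per {p : ℕ} (hpp : p.Prime) (z : ℂ) :
    ph Ix β c p (z + (2 * Real.pi / Real.log p : ℝ) * I) = ph Ix β c p z := by
  have hl : 0 < Real.log p := Real.log_pos (by exact_mod_cast hpp.one_lt)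
  have hp0 : (p : ℂ) ≠ 0 := by exact_mod_cast hpp.ne_zero
  have hlc : Complex.log (p : ℂ) ≠ 0 := by
    rw [← natCast_log]
    exact_mod_cast hl.ne'
  have h1 : (p : ℂ) ^ (((2 * Real.pi / Real.log p : ℝ) : ℂ) * Complex.I) = 1 := by
    rw [cpow_def_of_ne_zero hp0, exp_eq_one_iff]
    refine ⟨1, ?_⟩
    push_cast
    field_simp
  unfold ph
  rw [cpow_add _ _ hp0, h1, mul_one]
  have h3 : 1 - (z + ((2 * Real.pi / Real.log p : ℝ) : ℂ) * Complex.I) =
      (1 - z) - ((2 * Real.pi / Real.log p : ℝ) : ℂ) * Complex.I := by ring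
  rw [h3, cpow_sub _ _ hp0, h1, div_one]

/-- the orders of the functional equations -/
theorem ident [Nonempty J] (hL : ∀ j, LG S (Ix j) (β j) (μ j) (N j) (D j))
    (hSS : S ⊆ S₁) (hb : ∀ j, Bnd S₁ (ps (Ix j) (β j)) M ρ)
    (hβ : ∀ j, ∀ p : PS S₁, ∀ i ∈ Ix j, ‖β j p i‖ ≤ ρ)
    (hall : ∀ (p : PS S₁) (n : ℕ), GG c (fun j => ps (Ix j) (β j)) p (n + 1) = 0) :
    ∃ Sp : ℂ → ℝ, (∀ T : List ℝ, (∀ p ∈ S, p.Prime → 2 * Real.pi / Real.log p ∈ T) → Kill T Sp) ∧
      ∀ z, ∑ j, c j * ((mo (gi (μ j)) (1 - z) : ℝ) - mo (gi (μ j)) z) + Sp z =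
        ∑ p ∈ (S₁ \ S).filter Nat.Prime, ph Ix β c p z := by
  classical
  have hLF : ∀ j, LF0 S₁ (ps (Ix j) (β j)) (fun s => N j s * ef (lst (Ix j) (β j) S S₁) s) (D j) :=
    fun j => (hL j).toLF0 hSS (hb j) (hβ j)
  have hentN : ∀ j, Ent (N j) := fun j => (hL j).entN hSS (hb j) (hβ j)
  have hmm := mm_zero hLF hb (c := c) hall
  simp only [mm_gg] at hmm
  have hl1 : ∀ j, ∀ x ∈ lst (Ix j) (β j) S S₁, 1 < x.1 := fun j x hx => (lst_mem hx).1.one_lt
  have hmoN : ∀ j z, mo (fun s => N j s * ef (lst (Ix j) (β j) S S₁) s) z =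
      mo (N j) z + mo (ef (lst (Ix j) (β j) S S₁)) z := fun j z =>
    mo_mul (hentN j).diff (hentN j).ne (ef_ent (hl1 j)).diff (ef_ent (hl1 j)).ne z
  simp only [hmoN] at hmm
  choose l l' q ε hq hε hlp hlp' hfe using fun j => (hL j).fe
  have hord : ∀ j z, mo (gi (μ j)) (1 - z) + mo (ef (l j)) (1 - z) + mo (ef (l' j)) z +
      (mo (N j) z + mo (D j) (1 - z)) = mo (gi (μ j)) z + mo (ef (l j)) z +
      mo (ef (l' j)) (1 - z) + (mo (N j) (1 - z) + mo (D j) z) := fun j z =>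
    fe_mo (hentN j) (hL j).entD (hq j) (hε j) (fun x hx => (hlp j x hx).1.one_lt)
      (fun x hx => (hlp' j x hx).1.one_lt) (hfe j) z
  have hbz : ∀ z, ∑ j, c j * (mo (ef (lst (Ix j) (β j) S S₁)) z : ℝ) =
      ∑ p ∈ (S₁ \ S).filter Nat.Prime, Bm Ix β c p ((p : ℂ) ^ z) := by
    intro z
    simp only [mo_lst, Bm]
    rw [Finset.sum_comm]
    refine Finset.sum_congr rfl fun j _ => ?_
    rw [← Finset.mul_sum]
    congr 1
    push_cast
    rfl
  refine ⟨fun z => ∑ j, c j * (((mo (ef (l j)) (1 - z) : ℝ) + (-1) * mo (ef (l j)) z) +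
    ((mo (ef (l' j)) z : ℝ) + (-1) * mo (ef (l' j)) (1 - z))), fun T hT => ?_, fun z => ?_⟩
  · refine Kill.finset Finset.univ fun j _ => ?_
    obtain ⟨a1, a2⟩ := ef_kill (fun x hx => (hlp j x hx).1.one_lt)
      (L := T) fun x hx => hT x.1 (hlp j x hx).2 (hlp j x hx).1
    obtain ⟨b1, b2⟩ := ef_kill (fun x hx => (hlp' j x hx).1.one_lt)
      (L := T) fun x hx => hT x.1 (hlp' j x hx).2 (hlp' j x hx).1
    exact ((a2.add (a1.const_mul (-1))).add (b1.add (b2.const_mul (-1)))).const_mul (c j)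
  · have h1 := hmm z
    have h2 := hmm (1 - z)
    have h3 := hbz z
    have h4 := hbz (1 - z)
    have h5 : ∀ j, ((mo (gi (μ j)) (1 - z) : ℝ) - mo (gi (μ j)) z) +
        (((mo (ef (l j)) (1 - z) : ℝ) + (-1) * mo (ef (l j)) z) +
        ((mo (ef (l' j)) z : ℝ) + (-1) * mo (ef (l' j)) (1 - z))) =
        ((mo (N j) (1 - z) : ℝ) - mo (D j) (1 - z)) - ((mo (N j) z : ℝ) - mo (D j) z) := by
      intro j
      have h6 := hord j z
      have h7 : ((mo (gi (μ j)) (1 - z) + mo (ef (l j)) (1 - z) + mo (ef (l' j)) z +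
        (mo (N j) z + mo (D j) (1 - z)) : ℕ) : ℝ) = ((mo (gi (μ j)) z + mo (ef (l j)) z +
        mo (ef (l' j)) (1 - z) + (mo (N j) (1 - z) + mo (D j) z) : ℕ) : ℝ) := by
        exact_mod_cast h6
      push_cast at h7
      linarith only [h7]
    rw [← Finset.sum_add_distrib]
    have h8 : ∀ j ∈ Finset.univ, c j * ((mo (gi (μ j)) (1 - z) : ℝ) - mo (gi (μ j)) z) +
        c j * (((mo (ef (l j)) (1 - z) : ℝ) + (-1) * mo (ef (l j)) z) +
        ((mo (ef (l' j)) z : ℝ) + (-1) * mo (ef (l' j)) (1 - z))) =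
        c j * (((mo (N j) (1 - z) : ℝ) - mo (D j) (1 - z)) - ((mo (N j) z : ℝ) - mo (D j) z)) := by
      intro j _
      rw [← h5 j]
      ring
    rw [Finset.sum_congr rfl h8]
    simp only [ph, Finset.sum_sub_distrib]
    rw [← h3, ← h4]
    push_cast at h1 h2
    simp only [mul_sub, mul_add, Finset.sum_add_distrib, Finset.sum_sub_distrib] at h1 h2 ⊢
    linarith only [h1, h2]

/-- the gamma part vanishes -/
theorem gam_zero {Sp : ℂ → ℝ}
    (hSp : ∀ T : List ℝ, (∀ p ∈ S, p.Prime → 2 * Real.pi / Real.log p ∈ T) → Kill T Sp)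
    (hSS : S ⊆ S₁)
    (hid : ∀ z, ∑ j, c j * ((mo (gi (μ j)) (1 - z) : ℝ) - mo (gi (μ j)) z) + Sp z =
        ∑ p ∈ (S₁ \ S).filter Nat.Prime, ph Ix β c p z) (z : ℂ) :
    ∑ j, c j * ((mo (gi (μ j)) (1 - z) : ℝ) - mo (gi (μ j)) z) = 0 := by
  classical
  set P₁ : Finset ℕ := S₁.filter Nat.Prime with hP₁
  have hP₁p : ∀ p ∈ P₁, p.Prime := fun p hp => (Finset.mem_filter.1 hp).2
  have hFP : ∀ p ∈ (S₁ \ S).filter Nat.Prime, p ∈ P₁ := fun p hp => by
    rw [Finset.mem_filter, Finset.mem_sdiff] at hp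
    exact Finset.mem_filter.2 ⟨hp.1.1, hp.2⟩
  obtain ⟨Bd, hBd⟩ : ∃ Bd : ℝ, ∀ j, ∀ m ∈ μ j, |m.im| ≤ Bd := by
    refine ⟨∑ j, ((μ j).map fun m => |m.im|).sum, fun j m hm => ?_⟩
    have h1 : |m.im| ≤ ((μ j).map fun m => |m.im|).sum :=
      List.single_le_sum (by
        intro x hx
        rw [List.mem_map] at hx
        obtain ⟨y, -, rfl⟩ := hx
        exact abs_nonneg _) _ (List.mem_map.2 ⟨m, hm, rfl⟩)
    refine h1.trans (Finset.single_le_sum (f := fun j => ((μ j).map fun m => |m.im|).sum)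
      (fun j _ => List.sum_nonneg ?_) (Finset.mem_univ j))
    intro x hx
    rw [List.mem_map] at hx
    obtain ⟨y, -, rfl⟩ := hx
    exact abs_nonneg _
  have hLk : Kill (per P₁) fun z => ∑ j, c j * ((mo (gi (μ j)) (1 - z) : ℝ) -
      mo (gi (μ j)) z) := by
    have h1 : Kill (per P₁) fun z => (∑ p ∈ (S₁ \ S).filter Nat.Prime, ph Ix β c p z) +
        (-1) * Sp z := by
      refine (Kill.finset _ fun p hp => Kill.of_periodic (per_mem (hFP p hp))
        (ph_per (hP₁p p (hFP p hp)))).add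
        ((hSp _ fun p hp hpp => per_mem (Finset.mem_filter.2 ⟨hSS hp, hpp⟩)).const_mul (-1))
    refine (congrArg (Kill (per P₁)) ?_).mp h1
    funext z
    rw [← hid z]
    ring
  refine hLk.vanish (per_pos hP₁p) (B := Bd) (fun z hz => ?_) z
  refine Finset.sum_eq_zero fun j _ => ?_
  rw [gi_far, gi_far]
  · simp
  · intro m hm
    have h1 := (abs_le.1 (hBd j m hm)).1
    have : 0 < z.im + m.im := by linarith
    exact this.ne'
  · intro m hm
    have h1 := (abs_le.1 (hBd j m hm)).2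
    have : (1 - z).im + m.im < 0 := by
      rw [sub_im, one_im]
      linarith
    exact this.ne

/-- each prime separately -/
theorem ph_zero {Sp : ℂ → ℝ}
    (hSp : ∀ T : List ℝ, (∀ p ∈ S, p.Prime → 2 * Real.pi / Real.log p ∈ T) → Kill T Sp)
    (hSS : S ⊆ S₁)
    (hid : ∀ z, Sp z = ∑ p ∈ (S₁ \ S).filter Nat.Prime, ph Ix β c p z) {p₀ : ℕ}
    (hp₀ : p₀ ∈ (S₁ \ S).filter Nat.Prime) (z : ℂ) : ph Ix β c p₀ z = 0 := by
  classical
  set Fp : Finset ℕ := (S₁ \ S).filter Nat.Prime with hFp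
  set P₁ : Finset ℕ := S₁.filter Nat.Prime with hP₁
  have hP₁p : ∀ p ∈ P₁, p.Prime := fun p hp => (Finset.mem_filter.1 hp).2
  have hFP : ∀ p ∈ Fp, p ∈ P₁ := fun p hp => by
    rw [hFp, Finset.mem_filter, Finset.mem_sdiff] at hp
    exact Finset.mem_filter.2 ⟨hp.1.1, hp.2⟩
  have hpp := hP₁p p₀ (hFP p₀ hp₀)
  have hp0 : (p₀ : ℂ) ≠ 0 := by exact_mod_cast hpp.ne_zero
  have hp₀S : p₀ ∉ S := by
    rw [hFp, Finset.mem_filter, Finset.mem_sdiff] at hp₀
    exact hp₀.1.2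
  obtain ⟨X, hX⟩ := Bm_fin (Ix := Ix) (β := β) (c := c) p₀
  have hk : Kill (per (P₁.erase p₀)) fun z => ph Ix β c p₀ z := by
    have h1 : Kill (per (P₁.erase p₀)) fun z => Sp z +
        (-1) * ∑ p ∈ Fp.erase p₀, ph Ix β c p z := by
      refine (hSp _ fun p hp hpp' => per_mem (Finset.mem_erase.2 ⟨?_,
        Finset.mem_filter.2 ⟨hSS hp, hpp'⟩⟩)).add ((Kill.finset (Fp.erase p₀) fun p hp =>
        Kill.of_periodic (per_mem ?_) (ph_per (hP₁p p (hFP p (Finset.mem_erase.1 hp).2)))).const_mul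
          (-1))
      · intro h
        rw [h] at hp
        exact hp₀S hp
      · exact Finset.mem_erase.2 ⟨(Finset.mem_erase.1 hp).1, hFP p (Finset.mem_erase.1 hp).2⟩
    refine (congrArg (Kill (per (P₁.erase p₀))) ?_).mp h1
    funext z
    have h2 := hid z
    rw [← Finset.add_sum_erase Fp (fun p => ph Ix β c p z) hp₀] at h2
    rw [h2]
    ring
  refine sep hpp (P₁.erase p₀).toList (fun p hp => ?_)
    (X := X ∪ X.image fun x => (p₀ : ℂ) / x) (fun w hw => ?_) hk z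
  · rw [Finset.mem_toList, Finset.mem_erase] at hp
    exact ⟨hP₁p p hp.2, hp.1⟩
  · have hpw : (p₀ : ℂ) ^ w ≠ 0 := by
      rw [cpow_def_of_ne_zero hp0]
      exact exp_ne_zero _
    by_cases h1 : Bm Ix β c p₀ ((p₀ : ℂ) ^ w) = 0
    · have h2 : Bm Ix β c p₀ ((p₀ : ℂ) ^ (1 - w)) ≠ 0 := by
        intro h3
        apply hw
        unfold ph
        rw [h1, h3, sub_zero]
      refine Finset.mem_union_right _ (Finset.mem_image.2 ⟨_, hX _ h2, ?_⟩)
      rw [cpow_sub _ _ hp0, cpow_one]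
      field_simp
    · exact Finset.mem_union_left _ (hX _ h1)

/-- the multiplicities vanish -/
theorem Bm_zero {p : ℕ} (hpp : p.Prime)
    (hsym : ∀ x : ℂ, x ≠ 0 → Bm Ix β c p x = Bm Ix β c p x⁻¹)
    (hφ : ∀ z, ph Ix β c p z = 0) {x : ℂ} (hx : x ≠ 0) : Bm Ix β c p x = 0 := by
  classical
  have hp0 : (p : ℂ) ≠ 0 := by exact_mod_cast hpp.ne_zero
  have hp1 : (1 : ℝ) < p := by exact_mod_cast hpp.one_lt
  have hlog : Complex.log (p : ℂ) ≠ 0 := by
    rw [← natCast_log]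
    exact_mod_cast (Real.log_pos hp1).ne'
  have hstep : ∀ y : ℂ, y ≠ 0 → Bm Ix β c p y = Bm Ix β c p (y / p) := by
    intro y hy
    have h1 := hφ (log y / log (p : ℂ))
    have h2 : (p : ℂ) ^ (log y / log (p : ℂ)) = y := by
      rw [cpow_def_of_ne_zero hp0, mul_div_cancel₀ _ hlog, exp_log hy]
    unfold ph at h1
    rw [cpow_sub _ _ hp0, cpow_one, h2, sub_eq_zero] at h1
    rw [h1, hsym (p / y) (div_ne_zero hp0 hy), inv_div]
  have hn : ∀ n : ℕ, Bm Ix β c p (x / p ^ n) = Bm Ix β c p x := by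
    intro n
    induction n with
    | zero => simp
    | succ n ih =>
      rw [← ih, hstep (x / p ^ n) (div_ne_zero hx (pow_ne_zero _ hp0)), pow_succ]
      congr 1
      field_simp
  by_contra hcon
  obtain ⟨X, hX⟩ := Bm_fin (Ix := Ix) (β := β) (c := c) p
  have h1 : ∀ n : ℕ, x / (p : ℂ) ^ n ∈ X := fun n => hX _ (by rw [hn n]; exact hcon)
  obtain ⟨m, n, hne, h4⟩ := Finite.exists_ne_map_eq_of_infinite
    (fun n : ℕ => (⟨x / (p : ℂ) ^ n, h1 n⟩ : X))
  have h5 := congrArg Subtype.val h4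
  simp only at h5
  have h6 : (p : ℂ) ^ m = (p : ℂ) ^ n := by
    have h7 : (p : ℂ) ^ m ≠ 0 := pow_ne_zero _ hp0
    have h8 : (p : ℂ) ^ n ≠ 0 := pow_ne_zero _ hp0
    rw [div_eq_div_iff h7 h8] at h5
    exact (mul_left_cancel₀ hx h5).symm
  have h7 : p ^ m = p ^ n := by exact_mod_cast h6
  exact hne (Nat.pow_right_injective hpp.two_le h7)

/-- functions of the parameters -/
theorem Bm_sum (p : ℕ) (g : ℂ → ℂ) {X : Finset ℂ} (hX : ∀ j, ∀ i ∈ Ix j, β j p i ∈ X) :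
    ∑ j, (c j : ℂ) * ∑ i ∈ Ix j, g (β j p i) = ∑ x ∈ X, (Bm Ix β c p x : ℂ) * g x := by
  classical
  unfold Bm
  push_cast
  simp only [Finset.sum_mul]
  rw [Finset.sum_comm]
  refine Finset.sum_congr rfl fun j _ => ?_
  simp only [mul_assoc, ← Finset.mul_sum]
  congr 1
  simp only [Finset.sum_mul]
  rw [Finset.sum_comm]
  refine Finset.sum_congr rfl fun i hi => ?_
  rw [Finset.sum_eq_single (β j p i)]
  · simp
  · intro x _ hx
    rw [if_neg (Ne.symm hx)]
    simp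
  · intro h
    exact absurd (hX j i hi) h

/-- **A real relation between the traces at almost all primes holds at all powers at all unramified
primes, and at infinity.** -/
theorem rel_all [Nonempty J] (hL : ∀ j, LG S (Ix j) (β j) (μ j) (N j) (D j))
    (hSS : S ⊆ S₁) (hb : ∀ j, Bnd S₁ (ps (Ix j) (β j)) M ρ)
    (hβ : ∀ j, ∀ p : PS S₁, ∀ i ∈ Ix j, ‖β j p i‖ ≤ ρ)
    (hrel : ∀ p : PS S₁, ∑ j, (c j : ℂ) * ps (Ix j) (β j) p 1 = 0)
    (hsym : ∀ j, ∀ p : ℕ, p.Prime → p ∉ S → ∀ x : ℂ, x ≠ 0 →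
      (open Classical in ∑ i ∈ Ix j, if β j p i = x then (1 : ℝ) else 0) =
      (open Classical in ∑ i ∈ Ix j, if β j p i = x⁻¹ then (1 : ℝ) else 0)) :
    (∀ p : ℕ, p.Prime → p ∉ S → ∀ n : ℕ, ∑ j, (c j : ℂ) * ps (Ix j) (β j) p (n + 1) = 0) ∧
    ∀ z : ℂ, ∑ j, c j * ((mo (gi (μ j)) (1 - z) : ℝ) - mo (gi (μ j)) z) = 0 := by
  classical
  have hLF : ∀ j, LF0 S₁ (ps (Ix j) (β j)) (fun s => N j s * ef (lst (Ix j) (β j) S S₁) s) (D j) :=
    fun j => (hL j).toLF0 hSS (hb j) (hβ j)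
  have hrel' : ∀ p : PS S₁, GG c (fun j => ps (Ix j) (β j)) p 1 = 0 := hrel
  have hall : ∀ (p : PS S₁) (n : ℕ), GG c (fun j => ps (Ix j) (β j)) p (n + 1) = 0 := by
    intro p n
    rcases Nat.eq_zero_or_pos n with h0 | h0
    · rw [h0]
      exact hrel' p
    · obtain ⟨m, rfl⟩ := Nat.exists_eq_add_of_le' h0
      exact zero_all hLF hb hrel' p m
  obtain ⟨Sp, hSp, hid⟩ := ident hL hSS hb hβ hall
  have hLz := gam_zero hSp hSS hid
  have hid2 : ∀ z, Sp z = ∑ p ∈ (S₁ \ S).filter Nat.Prime, ph Ix β c p z := by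
    intro z
    rw [← hid z, hLz z, zero_add]
  refine ⟨fun p hpp hpS n => ?_, hLz⟩
  by_cases hp1 : p ∈ S₁
  · have hB : ∀ x : ℂ, x ≠ 0 → Bm Ix β c p x = 0 := fun x hx =>
      Bm_zero hpp (fun x hx => by
        unfold Bm
        refine Finset.sum_congr rfl fun j _ => ?_
        rw [hsym j p hpp hpS x hx]) (fun z => ph_zero hSp hSS hid2
        (Finset.mem_filter.2 ⟨Finset.mem_sdiff.2 ⟨hp1, hpS⟩, hpp⟩) z) hx
    have h1 := Bm_sum (Ix := Ix) (β := β) (c := c) p (fun x => x ^ (n + 1))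
      (X := Finset.univ.biUnion fun j => (Ix j).image fun i => β j p i) (fun j i hi => by
        rw [Finset.mem_biUnion]
        exact ⟨j, Finset.mem_univ _, Finset.mem_image.2 ⟨i, hi, rfl⟩⟩)
    unfold ps
    rw [h1]
    refine Finset.sum_eq_zero fun x _ => ?_
    by_cases hx : x = 0
    · rw [hx]
      simp
    · rw [hB x hx]
      simp
  · exact hall ⟨p, hpp, hp1⟩ n

end

end Pool.Agent.N845.SP
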